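import Mathlib

/-!
# Twisted coinvariants of complexes of `G`-modules along a poly-infinite-cyclic chain
-/

set_option autoImplicit false

namespace Pool.Agent.Lib.P9f173dA

universe u

variable {G : Type u} [Group G]

/-- a sign character on the subgroup `A`, as a function on `G` -/
def IsChar (A : Subgroup G) (χ : G → ℤˣ) : Prop := ∀ a ∈ A, ∀ b ∈ A, χ (a * b) = χ a * χ b

theorem IsChar.one {A : Subgroup G} {χ : G → ℤˣ} (h : IsChar A χ) : χ 1 = 1 := by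
  have := h 1 A.one_mem 1 A.one_mem
  rw [mul_one] at this
  exact (mul_eq_left.mp this.symm)

theorem IsChar.inv {A : Subgroup G} {χ : G → ℤˣ} (h : IsChar A χ) {a : G} (ha : a ∈ A) :
    χ a⁻¹ = χ a := by
  have h1 := h a ha a⁻¹ (A.inv_mem ha)
  rw [mul_inv_cancel, h.one] at h1
  have h2 : χ a⁻¹ = (χ a)⁻¹ := eq_inv_of_mul_eq_one_right h1.symm
  rw [h2, Int.units_inv_eq_self]

theorem IsChar.zpow {A : Subgroup G} {χ : G → ℤˣ} (h : IsChar A χ) {a : G} (ha : a ∈ A) (m : ℤ) :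
    χ (a ^ m) = χ a ^ m := by
  induction m using Int.induction_on with
  | zero => simp [h.one]
  | succ k ih =>
    rw [zpow_add_one, zpow_add_one, h _ (A.zpow_mem ha _) _ ha, ih]
  | pred k ih =>
    rw [zpow_sub_one, zpow_sub_one, h _ (A.zpow_mem ha _) _ (A.inv_mem ha), ih, h.inv ha,
      Int.units_inv_eq_self]

theorem IsChar.conj {A : Subgroup G} {χ : G → ℤˣ} (h : IsChar A χ) {t a : G} (ht : t ∈ A)
    (ha : a ∈ A) : χ (t * a * t⁻¹) = χ a := by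
  rw [h _ (A.mul_mem ht ha) _ (A.inv_mem ht), h _ ht _ ha, h.inv ht, mul_comm (χ t), mul_assoc,
    Int.units_mul_self, mul_one]

theorem IsChar.mono {A B : Subgroup G} (hAB : A ≤ B) {χ : G → ℤˣ} (h : IsChar B χ) : IsChar A χ :=
  fun a ha b hb => h a (hAB ha) b (hAB hb)

/-- an additive action of `G` on `M` -/
structure Act (G : Type u) [Group G] (M : Type u) [AddCommGroup M] where
  /-- the action -/
  f : G → M →+ M
  one : ∀ x, f 1 x = x
  mul : ∀ g h x, f (g * h) x = f g (f h x)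

section module

variable {M : Type u} [AddCommGroup M] (ρ : Act G M)

theorem Act.inv_cancel (t : G) (x : M) : ρ.f t (ρ.f t⁻¹ x) = x := by
  rw [← ρ.mul, mul_inv_cancel, ρ.one]

theorem Act.cancel_inv (t : G) (x : M) : ρ.f t⁻¹ (ρ.f t x) = x := by
  rw [← ρ.mul, inv_mul_cancel, ρ.one]

/-- twisted augmentation submodule -/
def K (A : Subgroup G) (χ : G → ℤˣ) : AddSubgroup M :=
  AddSubgroup.closure {y | ∃ a ∈ A, ∃ x : M, y = ρ.f a x - ((χ a : ℤˣ) : ℤ) • x}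

theorem mem_K {A : Subgroup G} {χ : G → ℤˣ} {a : G} (ha : a ∈ A) (x : M) :
    ρ.f a x - ((χ a : ℤˣ) : ℤ) • x ∈ K ρ A χ :=
  AddSubgroup.subset_closure ⟨a, ha, x, rfl⟩

theorem K_congr {A : Subgroup G} {χ χ' : G → ℤˣ} (h : ∀ a ∈ A, χ a = χ' a) :
    K ρ A χ = K ρ A χ' := by
  unfold K
  congr 1
  ext y
  constructor
  · rintro ⟨a, ha, x, rfl⟩
    exact ⟨a, ha, x, by rw [h a ha]⟩
  · rintro ⟨a, ha, x, rfl⟩
    exact ⟨a, ha, x, by rw [h a ha]⟩

theorem K_le {A : Subgroup G} {χ : G → ℤˣ} {S : AddSubgroup M}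
    (h : ∀ a ∈ A, ∀ x : M, ρ.f a x - ((χ a : ℤˣ) : ℤ) • x ∈ S) : K ρ A χ ≤ S := by
  unfold K
  rw [AddSubgroup.closure_le]
  rintro _ ⟨a, ha, x, rfl⟩
  exact h a ha x

theorem K_mono {A B : Subgroup G} (hAB : A ≤ B) (χ : G → ℤˣ) : K ρ A χ ≤ K ρ B χ :=
  K_le ρ fun _ ha x => mem_K ρ (hAB ha) x

/-- Conjugation maps twisted augmentation submodules to each other. -/
theorem conj_K {A : Subgroup G} {χ χ' : G → ℤˣ} {t : G}
    (h : ∀ a ∈ A, t * a * t⁻¹ ∈ A ∧ χ' (t * a * t⁻¹) = χ a) {x : M} (hx : x ∈ K ρ A χ) :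
    ρ.f t x ∈ K ρ A χ' := by
  have : K ρ A χ ≤ (K ρ A χ').comap (ρ.f t) := by
    apply K_le
    intro a ha x
    rw [AddSubgroup.mem_comap]
    have e1 : ρ.f t (ρ.f a x - ((χ a : ℤˣ) : ℤ) • x) =
        ρ.f (t * a * t⁻¹) (ρ.f t x) - ((χ' (t * a * t⁻¹) : ℤˣ) : ℤ) • ρ.f t x := by
      rw [(h a ha).2, map_sub, map_zsmul]
      congr 1
      rw [← ρ.mul, ← ρ.mul]
      congr 2
      group
    rw [e1]
    exact mem_K ρ (h a ha).1 _
  exact this hx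

/-- `(ρ t - ε) x` -/
def dt (t : G) (ε : ℤˣ) : M →+ M := ρ.f t - ((ε : ℤˣ) : ℤ) • AddMonoidHom.id M

theorem dt_apply (t : G) (ε : ℤˣ) (x : M) : dt ρ t ε x = ρ.f t x - ((ε : ℤˣ) : ℤ) • x := rfl

theorem dt_mem_K {A : Subgroup G} {χ : G → ℤˣ} {t : G} (ht : t ∈ A) (x : M) :
    dt ρ t (χ t) x ∈ K ρ A χ := mem_K ρ ht x

/-- powers of `t` -/
theorem pow_mem_range (t : G) (ε : ℤˣ) (m : ℤ) (x : M) :
    ρ.f (t ^ m) x - (((ε ^ m : ℤˣ)) : ℤ) • x ∈ (dt ρ t ε).range := by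
  induction m using Int.induction_on generalizing x with
  | zero =>
    rw [zpow_zero, zpow_zero, ρ.one, Units.val_one, one_smul, sub_self]
    exact AddSubgroup.zero_mem _
  | succ k ih =>
    have e1 : ρ.f (t ^ ((k : ℤ) + 1)) x - (((ε ^ ((k : ℤ) + 1) : ℤˣ)) : ℤ) • x =
        (ρ.f (t ^ (k : ℤ)) (ρ.f t x) - (((ε ^ (k : ℤ) : ℤˣ)) : ℤ) • ρ.f t x) +
          dt ρ t ε ((((ε ^ (k : ℤ) : ℤˣ)) : ℤ) • x) := by
      rw [dt_apply, map_zsmul, zpow_add_one, zpow_add_one, ρ.mul,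
        Units.val_mul, mul_smul, smul_comm ((ε : ℤˣ) : ℤ)]
      abel
    rw [e1]
    exact (dt ρ t ε).range.add_mem (ih _) ⟨_, rfl⟩
  | pred k ih =>
    have e1 : ρ.f (t ^ (-(k : ℤ) - 1)) x - (((ε ^ (-(k : ℤ) - 1) : ℤˣ)) : ℤ) • x =
        (ρ.f (t ^ (-(k : ℤ))) (ρ.f t⁻¹ x) - (((ε ^ (-(k : ℤ)) : ℤˣ)) : ℤ) • ρ.f t⁻¹ x) -
          dt ρ t ε ((((ε ^ (-(k : ℤ)) * ε : ℤˣ)) : ℤ) • ρ.f t⁻¹ x) := by
      rw [dt_apply, map_zsmul, zpow_sub_one, zpow_sub_one, ρ.mul, Int.units_inv_eq_self,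
        ρ.inv_cancel]
      have e3 : ((ε : ℤˣ) : ℤ) • (((ε ^ (-(k : ℤ)) * ε : ℤˣ)) : ℤ) • ρ.f t⁻¹ x =
          (((ε ^ (-(k : ℤ)) : ℤˣ)) : ℤ) • ρ.f t⁻¹ x := by
        rw [smul_smul, ← Units.val_mul, mul_comm ε, mul_assoc, Int.units_mul_self, mul_one]
      rw [e3]
      abel
    rw [e1]
    exact (dt ρ t ε).range.sub_mem (ih _) ⟨_, rfl⟩

end module

/-! ### Chains -/

/-- `t` normalises `A` and has infinite order modulo `A`. -/
structure Step (A : Subgroup G) (t : G) : Prop where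
  conj : ∀ a ∈ A, t * a * t⁻¹ ∈ A
  conj' : ∀ a ∈ A, t⁻¹ * a * t ∈ A
  inf : ∀ m : ℤ, t ^ m ∈ A → m = 0

/-- the subgroup generated by `A` and `t` when `t` normalises `A` -/
def next (A : Subgroup G) (t : G) (h : Step A t) : Subgroup G where
  carrier := {g | ∃ a ∈ A, ∃ m : ℤ, g = a * t ^ m}
  one_mem' := ⟨1, A.one_mem, 0, by simp⟩
  mul_mem' := by
    have hc : ∀ m : ℤ, ∀ a ∈ A, t ^ m * a * (t ^ m)⁻¹ ∈ A := by
      intro m
      induction m using Int.induction_on with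
      | zero => intro a ha; simpa using ha
      | succ k ih =>
        intro a ha
        have e : t ^ ((k : ℤ) + 1) * a * (t ^ ((k : ℤ) + 1))⁻¹ =
            t ^ (k : ℤ) * (t * a * t⁻¹) * (t ^ (k : ℤ))⁻¹ := by
          rw [zpow_add_one]; group
        rw [e]
        exact ih _ (h.conj a ha)
      | pred k ih =>
        intro a ha
        have e : t ^ (-(k : ℤ) - 1) * a * (t ^ (-(k : ℤ) - 1))⁻¹ =
            t ^ (-(k : ℤ)) * (t⁻¹ * a * t) * (t ^ (-(k : ℤ)))⁻¹ := by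
          rw [zpow_sub_one]; group
        rw [e]
        exact ih _ (h.conj' a ha)
    rintro _ _ ⟨a, ha, m, rfl⟩ ⟨b, hb, k, rfl⟩
    refine ⟨a * (t ^ m * b * (t ^ m)⁻¹), A.mul_mem ha (hc m b hb), m + k, ?_⟩
    rw [zpow_add]
    group
  inv_mem' := by
    have hc : ∀ m : ℤ, ∀ a ∈ A, t ^ m * a * (t ^ m)⁻¹ ∈ A := by
      intro m
      induction m using Int.induction_on with
      | zero => intro a ha; simpa using ha
      | succ k ih =>
        intro a ha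
        have e : t ^ ((k : ℤ) + 1) * a * (t ^ ((k : ℤ) + 1))⁻¹ =
            t ^ (k : ℤ) * (t * a * t⁻¹) * (t ^ (k : ℤ))⁻¹ := by
          rw [zpow_add_one]; group
        rw [e]
        exact ih _ (h.conj a ha)
      | pred k ih =>
        intro a ha
        have e : t ^ (-(k : ℤ) - 1) * a * (t ^ (-(k : ℤ) - 1))⁻¹ =
            t ^ (-(k : ℤ)) * (t⁻¹ * a * t) * (t ^ (-(k : ℤ)))⁻¹ := by
          rw [zpow_sub_one]; group
        rw [e]
        exact ih _ (h.conj' a ha)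
    rintro _ ⟨a, ha, m, rfl⟩
    refine ⟨t ^ (-m) * a⁻¹ * (t ^ (-m))⁻¹, hc (-m) _ (A.inv_mem ha), -m, ?_⟩
    group

theorem le_next {A : Subgroup G} {t : G} (h : Step A t) : A ≤ next A t h :=
  fun a ha => ⟨a, ha, 0, by simp⟩

theorem mem_next {A : Subgroup G} {t : G} (h : Step A t) : t ∈ next A t h :=
  ⟨1, A.one_mem, 1, by simp⟩

theorem next_le {A B : Subgroup G} {t : G} (h : Step A t) (hAB : A ≤ B) (ht : t ∈ B) :
    next A t h ≤ B := by
  rintro _ ⟨a, ha, m, rfl⟩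
  exact B.mul_mem (hAB ha) (B.zpow_mem ht m)

theorem next_unique {A : Subgroup G} {t : G} (h : Step A t) {a b : G} (ha : a ∈ A) (hb : b ∈ A)
    {m k : ℤ} (e : a * t ^ m = b * t ^ k) : a = b ∧ m = k := by
  have h1 : t ^ (m - k) ∈ A := by
    have : t ^ (m - k) = a⁻¹ * b := by
      rw [zpow_sub]
      have : t ^ m = a⁻¹ * (b * t ^ k) := by rw [← e]; group
      rw [this]; group
    rw [this]
    exact A.mul_mem (A.inv_mem ha) hb
  have h2 : m = k := by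
    have := h.inf _ h1
    omega
  subst h2
  exact ⟨mul_right_cancel e, rfl⟩

open scoped Classical in
/-- extension of a character -/
noncomputable def extChar {A : Subgroup G} {t : G} (h : Step A t) (χ : G → ℤˣ) (ε : ℤˣ) :
    G → ℤˣ := fun g =>
  if hg : g ∈ next A t h then χ hg.choose * ε ^ hg.choose_spec.2.choose else 1

theorem extChar_apply {A : Subgroup G} {t : G} (h : Step A t) (χ : G → ℤˣ) (ε : ℤˣ) {a : G}
    (ha : a ∈ A) (m : ℤ) : extChar h χ ε (a * t ^ m) = χ a * ε ^ m := by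
  have hg : a * t ^ m ∈ next A t h := ⟨a, ha, m, rfl⟩
  unfold extChar
  rw [dif_pos hg]
  obtain ⟨h1, h2⟩ := next_unique h ha hg.choose_spec.1 hg.choose_spec.2.choose_spec
  exact (congrArg₂ (fun x (y : ℤ) => χ x * ε ^ y) h1 h2).symm

theorem extChar_of_mem {A : Subgroup G} {t : G} (h : Step A t) (χ : G → ℤˣ) (ε : ℤˣ) {a : G}
    (ha : a ∈ A) : extChar h χ ε a = χ a := by
  have := extChar_apply h χ ε ha 0
  simpa using this

theorem extChar_t {A : Subgroup G} {t : G} (h : Step A t) {χ : G → ℤˣ} (hχ : IsChar A χ)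
    (ε : ℤˣ) : extChar h χ ε t = ε := by
  have := extChar_apply h χ ε A.one_mem 1
  simpa [hχ.one] using this

theorem conj_zpow_mem {A : Subgroup G} {t : G} (h : Step A t) {χ : G → ℤˣ}
    (hinv : ∀ a ∈ A, χ (t * a * t⁻¹) = χ a) (m : ℤ) :
    ∀ a ∈ A, t ^ m * a * (t ^ m)⁻¹ ∈ A ∧ χ (t ^ m * a * (t ^ m)⁻¹) = χ a := by
  induction m using Int.induction_on with
  | zero => intro a ha; simpa using ha
  | succ k ih =>
    intro a ha
    have e : t ^ ((k : ℤ) + 1) * a * (t ^ ((k : ℤ) + 1))⁻¹ =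
        t ^ (k : ℤ) * (t * a * t⁻¹) * (t ^ (k : ℤ))⁻¹ := by
      rw [zpow_add_one]; group
    rw [e]
    refine ⟨(ih _ (h.conj a ha)).1, ?_⟩
    rw [(ih _ (h.conj a ha)).2, hinv a ha]
  | pred k ih =>
    intro a ha
    have e : t ^ (-(k : ℤ) - 1) * a * (t ^ (-(k : ℤ) - 1))⁻¹ =
        t ^ (-(k : ℤ)) * (t⁻¹ * a * t) * (t ^ (-(k : ℤ)))⁻¹ := by
      rw [zpow_sub_one]; group
    rw [e]
    refine ⟨(ih _ (h.conj' a ha)).1, ?_⟩
    rw [(ih _ (h.conj' a ha)).2]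
    have := hinv _ (h.conj' a ha)
    rw [← this]
    congr 1
    group

theorem extChar_isChar {A : Subgroup G} {t : G} (h : Step A t) {χ : G → ℤˣ} (hχ : IsChar A χ)
    (hinv : ∀ a ∈ A, χ (t * a * t⁻¹) = χ a) (ε : ℤˣ) :
    IsChar (next A t h) (extChar h χ ε) := by
  rintro _ ⟨a, ha, m, rfl⟩ _ ⟨b, hb, k, rfl⟩
  obtain ⟨h1, h2⟩ := conj_zpow_mem h hinv m b hb
  have e : a * t ^ m * (b * t ^ k) = (a * (t ^ m * b * (t ^ m)⁻¹)) * t ^ (m + k) := by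
    rw [zpow_add]; group
  rw [e, extChar_apply h χ ε (A.mul_mem ha h1), extChar_apply h χ ε ha, extChar_apply h χ ε hb,
    hχ a ha _ h1, h2, zpow_add]
  rw [mul_mul_mul_comm]

theorem K_next {M : Type u} [AddCommGroup M] (ρ : Act G M) {A : Subgroup G} {t : G}
    (h : Step A t) {χ : G → ℤˣ} (hχ : IsChar (next A t h) χ) :
    K ρ (next A t h) χ = K ρ A χ ⊔ (dt ρ t (χ t)).range := by
  apply le_antisymm
  · apply K_le
    rintro _ ⟨a, ha, m, rfl⟩ x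
    have e : ρ.f (a * t ^ m) x - ((χ (a * t ^ m) : ℤˣ) : ℤ) • x =
        (ρ.f a (ρ.f (t ^ m) x) - ((χ a : ℤˣ) : ℤ) • ρ.f (t ^ m) x) +
        ((χ a : ℤˣ) : ℤ) • (ρ.f (t ^ m) x - (((χ t ^ m : ℤˣ)) : ℤ) • x) := by
      rw [ρ.mul, hχ a (le_next h ha) _ ((next A t h).zpow_mem (mem_next h) m),
        hχ.zpow (mem_next h), smul_sub, Units.val_mul, mul_smul]
      abel
    rw [e]
    apply AddSubgroup.add_mem
    · exact AddSubgroup.mem_sup_left (mem_K ρ ha _)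
    · apply AddSubgroup.mem_sup_right
      exact AddSubgroup.zsmul_mem _ (pow_mem_range ρ t (χ t) m x) _
  · apply sup_le (K_mono ρ (le_next h) χ)
    rintro _ ⟨x, rfl⟩
    exact dt_mem_K ρ (mem_next h) x

theorem dt_K {M : Type u} [AddCommGroup M] (ρ : Act G M) {A : Subgroup G} {t : G}
    (h : Step A t) {χ : G → ℤˣ} (hinv : ∀ a ∈ A, χ (t * a * t⁻¹) = χ a) (ε : ℤˣ) {x : M}
    (hx : x ∈ K ρ A χ) : dt ρ t ε x ∈ K ρ A χ := by
  rw [dt_apply]
  exact AddSubgroup.sub_mem _ (conj_K ρ (fun a ha => ⟨h.conj a ha, hinv a ha⟩) hx)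
    (AddSubgroup.zsmul_mem _ hx _)

end Pool.Agent.Lib.P9f173dA
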