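import Pool.Agent.Lib.P9f173dA.Alg

/-!
# Top homology of poly-infinite-cyclic subgroups
-/

set_option autoImplicit false

namespace Pool.Agent.Lib.P9f173dA

universe u

/-- A resolution by regular `G`-modules. -/
structure Cx (G : Type u) [Group G] where
  /-- the modules -/
  F : ℕ → Type u
  [grp : ∀ i, AddCommGroup (F i)]
  /-- the action -/
  ρ : ∀ i, Act G (F i)
  /-- the differential -/
  δ : ∀ i, F (i + 1) →+ F i
  comm : ∀ i g x, δ i ((ρ (i + 1)).f g x) = (ρ i).f g (δ i x)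
  sq : ∀ i x, δ i (δ (i + 1) x) = 0
  exact : ∀ i x, δ i x = 0 → ∃ y, δ (i + 1) y = x
  /-- the augmentation -/
  aug : F 0 →+ ℤ
  aug_inv : ∀ g x, aug ((ρ 0).f g x) = aug x
  aug_δ : ∀ x, aug (δ 0 x) = 0
  aug_exact : ∀ x, aug x = 0 → ∃ y, δ 0 y = x
  aug_one : ∃ x, aug x = 1
  reg : ∀ (A : Subgroup G) (t : G) (h : Step A t) (χ : G → ℤˣ), IsChar (next A t h) χ →
    ∀ i (x : F i), dt (ρ i) t (χ t) x ∈ K (ρ i) A χ → x ∈ K (ρ i) A χ

attribute [instance] Cx.grp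

variable {G : Type u} [Group G] (c : Cx G)

/-- boundaries -/
def Bd (A : Subgroup G) (χ : G → ℤˣ) (i : ℕ) : AddSubgroup (c.F i) :=
  (c.δ i).range ⊔ K (c.ρ i) A χ

/-- cycles -/
def Cyc (A : Subgroup G) (χ : G → ℤˣ) : (i : ℕ) → c.F i → Prop
  | 0, _ => True
  | i + 1, x => c.δ i x ∈ K (c.ρ i) A χ

theorem Bd_congr {A : Subgroup G} {χ χ' : G → ℤˣ} (h : ∀ a ∈ A, χ a = χ' a) (i : ℕ) :
    Bd c A χ i = Bd c A χ' i := by
  unfold Bd
  rw [K_congr _ h]

theorem Cyc_congr {A : Subgroup G} {χ χ' : G → ℤˣ} (h : ∀ a ∈ A, χ a = χ' a) (i : ℕ)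
    (x : c.F i) : Cyc c A χ i x ↔ Cyc c A χ' i x := by
  cases i with
  | zero => exact Iff.rfl
  | succ i =>
    change c.δ i x ∈ K (c.ρ i) A χ ↔ c.δ i x ∈ K (c.ρ i) A χ'
    rw [K_congr _ h]

theorem K_le_Bd (A : Subgroup G) (χ : G → ℤˣ) (i : ℕ) : K (c.ρ i) A χ ≤ Bd c A χ i :=
  le_sup_right

theorem δ_mem_Bd (A : Subgroup G) (χ : G → ℤˣ) (i : ℕ) (x : c.F (i + 1)) :
    c.δ i x ∈ Bd c A χ i := AddSubgroup.mem_sup_left ⟨x, rfl⟩

theorem δ_dt (i : ℕ) (t : G) (ε : ℤˣ) (x : c.F (i + 1)) :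
    c.δ i (dt (c.ρ (i + 1)) t ε x) = dt (c.ρ i) t ε (c.δ i x) := by
  rw [dt_apply, dt_apply, map_sub, c.comm, map_zsmul]

theorem δ_K {A : Subgroup G} {χ : G → ℤˣ} {i : ℕ} {x : c.F (i + 1)}
    (hx : x ∈ K (c.ρ (i + 1)) A χ) : c.δ i x ∈ K (c.ρ i) A χ := by
  have : K (c.ρ (i + 1)) A χ ≤ (K (c.ρ i) A χ).comap (c.δ i) := by
    apply K_le
    intro a ha x
    rw [AddSubgroup.mem_comap, map_sub, c.comm, map_zsmul]
    exact mem_K _ ha _
  exact this hx

theorem Bd_mono {A B : Subgroup G} (hAB : A ≤ B) (χ : G → ℤˣ) (i : ℕ) :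
    Bd c A χ i ≤ Bd c B χ i := sup_le_sup le_rfl (K_mono _ hAB χ)

theorem mem_Bd {A : Subgroup G} {χ : G → ℤˣ} {i : ℕ} {x : c.F i} :
    x ∈ Bd c A χ i ↔ ∃ u : c.F (i + 1), ∃ κ ∈ K (c.ρ i) A χ, x = c.δ i u + κ := by
  unfold Bd
  rw [AddSubgroup.mem_sup]
  constructor
  · rintro ⟨_, ⟨u, rfl⟩, κ, hκ, rfl⟩
    exact ⟨u, κ, hκ, rfl⟩
  · rintro ⟨u, κ, hκ, rfl⟩
    exact ⟨_, ⟨u, rfl⟩, κ, hκ, rfl⟩

theorem dt_Bd {A : Subgroup G} {t : G} (h : Step A t) {χ : G → ℤˣ}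
    (hinv : ∀ a ∈ A, χ (t * a * t⁻¹) = χ a) (ε : ℤˣ) {i : ℕ} {x : c.F i}
    (hx : x ∈ Bd c A χ i) : dt (c.ρ i) t ε x ∈ Bd c A χ i := by
  rw [mem_Bd] at hx ⊢
  obtain ⟨u, κ, hκ, rfl⟩ := hx
  exact ⟨dt _ t ε u, _, dt_K _ h hinv ε hκ, by rw [map_add, δ_dt]⟩

theorem conj_Bd {A : Subgroup G} {t : G} {χ χ' : G → ℤˣ}
    (h : ∀ a ∈ A, t * a * t⁻¹ ∈ A ∧ χ' (t * a * t⁻¹) = χ a) {i : ℕ} {x : c.F i}
    (hx : x ∈ Bd c A χ i) : (c.ρ i).f t x ∈ Bd c A χ' i := by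
  rw [mem_Bd] at hx ⊢
  obtain ⟨u, κ, hκ, rfl⟩ := hx
  exact ⟨(c.ρ (i + 1)).f t u, _, conj_K _ h hκ, by rw [map_add, c.comm]⟩

theorem conj_Cyc {A : Subgroup G} {t : G} {χ χ' : G → ℤˣ}
    (h : ∀ a ∈ A, t * a * t⁻¹ ∈ A ∧ χ' (t * a * t⁻¹) = χ a) {i : ℕ} {x : c.F i}
    (hx : Cyc c A χ i x) : Cyc c A χ' i ((c.ρ i).f t x) := by
  cases i with
  | zero => trivial
  | succ i =>
    change c.δ i x ∈ K (c.ρ i) A χ at hx
    change c.δ i ((c.ρ (i + 1)).f t x) ∈ K (c.ρ i) A χ'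
    rw [c.comm]
    exact conj_K _ h hx

theorem char_inv {A : Subgroup G} {t : G} (h : Step A t) {χ : G → ℤˣ}
    (hχ : IsChar (next A t h) χ) : ∀ a ∈ A, χ (t * a * t⁻¹) = χ a :=
  fun _ ha => hχ.conj (mem_next h) (le_next h ha)

/-- a cycle for the bigger group gives a cycle for the smaller group one degree lower -/
theorem descend {A : Subgroup G} {t : G} (h : Step A t) {χ : G → ℤˣ}
    (hχ : IsChar (next A t h) χ) {k : ℕ} {x : c.F (k + 1)}
    (hx : c.δ k x ∈ K (c.ρ k) (next A t h) χ) :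
    ∃ w : c.F k, Cyc c A χ k w ∧ c.δ k x - dt (c.ρ k) t (χ t) w ∈ K (c.ρ k) A χ := by
  rw [K_next _ h hχ, AddSubgroup.mem_sup] at hx
  obtain ⟨κ, hκ, _, ⟨w, rfl⟩, e⟩ := hx
  refine ⟨w, ?_, ?_⟩
  · cases k with
    | zero => trivial
    | succ k =>
      unfold Cyc
      apply c.reg A t h χ hχ
      have e1 := congrArg (c.δ k) e
      rw [map_add, c.sq, δ_dt] at e1
      have e2 : dt (c.ρ k) t (χ t) (c.δ k w) = - c.δ k κ := by
        rw [add_comm] at e1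
        exact eq_neg_of_add_eq_zero_left e1
      rw [e2]
      exact AddSubgroup.neg_mem _ (δ_K c hκ)
  · rw [← e, add_sub_cancel_right]
    exact hκ

/-- vanishing of homology -/
def V (A : Subgroup G) (χ : G → ℤˣ) (i : ℕ) : Prop :=
  ∀ x : c.F (i + 1), c.δ i x ∈ K (c.ρ i) A χ → x ∈ Bd c A χ (i + 1)

theorem ascend {A : Subgroup G} {t : G} (h : Step A t) {χ : G → ℤˣ}
    (hχ : IsChar (next A t h) χ) {k : ℕ} (hV : V c A χ k) {x : c.F (k + 1)} {w : c.F k}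
    (hx : c.δ k x - dt (c.ρ k) t (χ t) w ∈ K (c.ρ k) A χ) (hw : w ∈ Bd c A χ k) :
    x ∈ Bd c (next A t h) χ (k + 1) := by
  rw [mem_Bd] at hw
  obtain ⟨u, κ, hκ, rfl⟩ := hw
  have h1 : c.δ k (x - dt (c.ρ (k + 1)) t (χ t) u) ∈ K (c.ρ k) A χ := by
    have e : c.δ k (x - dt (c.ρ (k + 1)) t (χ t) u) =
        (c.δ k x - dt (c.ρ k) t (χ t) (c.δ k u + κ)) + dt (c.ρ k) t (χ t) κ := by
      rw [map_sub, δ_dt, map_add]
      abel
    rw [e]
    exact AddSubgroup.add_mem _ hx (dt_K _ h (char_inv h hχ) _ hκ)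
  have h2 := Bd_mono c (le_next h) χ _ (hV _ h1)
  have h3 : x = (x - dt (c.ρ (k + 1)) t (χ t) u) + dt (c.ρ (k + 1)) t (χ t) u := by abel
  rw [h3]
  exact AddSubgroup.add_mem _ h2 (K_le_Bd _ _ _ _ (dt_mem_K _ (mem_next h) u))

/-- The homology of `A` with sign coefficients: zero above degree `k`, and in degree `k` it is
infinite cyclic for one character and zero for all others. -/
structure P (A : Subgroup G) (k : ℕ) : Prop where
  van : ∀ χ, IsChar A χ → ∀ i, k ≤ i → V c A χ i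
  top : ∃ χ, IsChar A χ ∧ ∃ y : c.F k, Cyc c A χ k y ∧
    (∀ x, Cyc c A χ k x → ∃ m : ℤ, x - m • y ∈ Bd c A χ k) ∧
    (∀ m : ℤ, m • y ∈ Bd c A χ k → m = 0) ∧
    (∀ ψ, IsChar A ψ → (¬ ∀ a ∈ A, ψ a = χ a) → ∀ x, Cyc c A ψ k x → x ∈ Bd c A ψ k)

theorem K_bot {M : Type u} [AddCommGroup M] (ρ : Act G M) {χ : G → ℤˣ}
    (hχ : IsChar (⊥ : Subgroup G) χ) : K ρ ⊥ χ = ⊥ := by
  rw [eq_bot_iff]
  apply K_le
  intro a ha x
  rw [Subgroup.mem_bot] at ha
  subst ha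
  rw [ρ.one, hχ.one, Units.val_one, one_smul, sub_self]
  exact AddSubgroup.zero_mem _

theorem P_zero : P c (⊥ : Subgroup G) 0 where
  van := by
    intro χ hχ i _ x hx
    rw [K_bot _ hχ, AddSubgroup.mem_bot] at hx
    obtain ⟨y, rfl⟩ := c.exact i x hx
    exact δ_mem_Bd c _ _ _ _
  top := by
    have h1 : IsChar (⊥ : Subgroup G) (fun _ => 1) := fun _ _ _ _ => (one_mul 1).symm
    obtain ⟨y, hy⟩ := c.aug_one
    refine ⟨fun _ => 1, h1, y, trivial, ?_, ?_, ?_⟩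
    · intro x _
      refine ⟨c.aug x, ?_⟩
      have : c.aug (x - c.aug x • y) = 0 := by
        rw [map_sub, map_zsmul, hy, smul_eq_mul, mul_one, sub_self]
      obtain ⟨z, hz⟩ := c.aug_exact _ this
      rw [← hz]
      exact δ_mem_Bd c _ _ _ _
    · intro m hm
      rw [mem_Bd] at hm
      obtain ⟨u, κ, hκ, e⟩ := hm
      rw [K_bot _ h1, AddSubgroup.mem_bot] at hκ
      have := congrArg c.aug e
      rw [hκ, add_zero, c.aug_δ, map_zsmul, hy, smul_eq_mul, mul_one] at this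
      exact this
    · intro ψ hψ hne
      exfalso
      apply hne
      intro a ha
      rw [Subgroup.mem_bot] at ha
      subst ha
      exact hψ.one

theorem P_step {A : Subgroup G} {t : G} (h : Step A t) {k : ℕ} (hP : P c A k) :
    P c (next A t h) (k + 1) := by
  obtain ⟨hvan, χ, hχ, y, hy, hgen, htf, huniq⟩ := hP
  refine ⟨?_, ?_⟩
  · intro ψ hψ i hi x hx
    have hψA : IsChar A ψ := hψ.mono (le_next h)
    obtain ⟨w, hw1, hw2⟩ := descend c h hψ hx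
    apply ascend c h hψ (hvan ψ hψA i (by omega)) hw2
    obtain ⟨i', rfl⟩ : ∃ i', i = i' + 1 := ⟨i - 1, by omega⟩
    exact hvan ψ hψA i' (by omega) w hw1
  · -- invariance of the character
    have hone : ¬ y ∈ Bd c A χ k := by
      intro hy'
      have := htf 1 (by rwa [one_smul])
      exact one_ne_zero this
    have hinv : ∀ a ∈ A, χ (t * a * t⁻¹) = χ a := by
      by_contra hcon
      set χ' : G → ℤˣ := fun a => χ (t⁻¹ * a * t) with hχ'
      have hχ'c : IsChar A χ' := by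
        intro a ha b hb
        have e : t⁻¹ * (a * b) * t = (t⁻¹ * a * t) * (t⁻¹ * b * t) := by group
        simp only [hχ']
        rw [e]
        exact hχ _ (h.conj' a ha) _ (h.conj' b hb)
      have hne : ¬ ∀ a ∈ A, χ' a = χ a := by
        intro hall
        apply hcon
        intro a ha
        have := hall _ (h.conj a ha)
        rw [← this]
        simp only [hχ']
        congr 1
        group
      have h1 : ∀ a ∈ A, t * a * t⁻¹ ∈ A ∧ χ' (t * a * t⁻¹) = χ a := by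
        intro a ha
        refine ⟨h.conj a ha, ?_⟩
        simp only [hχ']
        congr 1
        group
      have h2 := huniq χ' hχ'c hne _ (conj_Cyc c h1 hy)
      have h3 : ∀ a ∈ A, t⁻¹ * a * t⁻¹⁻¹ ∈ A ∧ χ (t⁻¹ * a * t⁻¹⁻¹) = χ' a := by
        intro a ha
        rw [inv_inv]
        exact ⟨h.conj' a ha, rfl⟩
      have h4 := conj_Bd c h3 h2
      rw [(c.ρ k).cancel_inv] at h4
      exact hone h4
    have hinv1 : ∀ a ∈ A, t * a * t⁻¹ ∈ A ∧ χ (t * a * t⁻¹) = χ a :=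
      fun a ha => ⟨h.conj a ha, hinv a ha⟩
    have hinv2 : ∀ a ∈ A, t⁻¹ * a * t⁻¹⁻¹ ∈ A ∧ χ (t⁻¹ * a * t⁻¹⁻¹) = χ a := by
      intro a ha
      rw [inv_inv]
      refine ⟨h.conj' a ha, ?_⟩
      have := hinv _ (h.conj' a ha)
      rw [← this]
      congr 1
      group
    -- the sign
    obtain ⟨ε, hε⟩ : ∃ ε : ℤˣ, dt (c.ρ k) t ε y ∈ Bd c A χ k := by
      obtain ⟨m, hm⟩ := hgen _ (conj_Cyc c hinv1 hy)
      obtain ⟨m', hm'⟩ := hgen _ (conj_Cyc c hinv2 hy)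
      have h1 : (m * m' - 1) • y ∈ Bd c A χ k := by
        have e1 := conj_Bd c hinv1 hm'
        rw [map_sub, (c.ρ k).inv_cancel, map_zsmul] at e1
        have e2 : (m * m' - 1) • y = -((y - m' • (c.ρ k).f t y) + m' • ((c.ρ k).f t y - m • y)) := by
          rw [smul_sub, sub_smul, one_smul, smul_smul, mul_comm m' m]
          abel
        rw [e2]
        exact AddSubgroup.neg_mem _ (AddSubgroup.add_mem _ e1 (AddSubgroup.zsmul_mem _ hm _))
      have h2 : m * m' = 1 := by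
        have := htf _ h1
        omega
      refine ⟨⟨m, m', h2, by rw [mul_comm]; exact h2⟩, ?_⟩
      rw [dt_apply]
      exact hm
    set χ₁ : G → ℤˣ := extChar h χ ε with hχ₁
    have hχ₁c : IsChar (next A t h) χ₁ := extChar_isChar h hχ hinv ε
    have hχ₁A : ∀ a ∈ A, χ₁ a = χ a := fun a ha => extChar_of_mem h χ ε ha
    have hχ₁t : χ₁ t = ε := extChar_t h hχ ε
    -- the new generator
    obtain ⟨y', κ₀, hκ₀, ey⟩ := (mem_Bd c).mp hε
    -- key computation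
    have key : ∀ ψ, IsChar (next A t h) ψ → (∀ a ∈ A, ψ a = χ a) → ∀ x : c.F (k + 1),
        c.δ k x ∈ K (c.ρ k) (next A t h) ψ →
        ∃ m : ℤ, (m * ((ε : ℤ) - (ψ t : ℤ))) • y ∈ Bd c A χ k ∧
          (ψ t = ε → x - m • y' ∈ Bd c (next A t h) ψ (k + 1)) ∧
          (m = 0 → x ∈ Bd c (next A t h) ψ (k + 1)) := by
      intro ψ hψ hψχ x hx
      obtain ⟨w, hw1, hw2⟩ := descend c h hψ hx
      rw [Cyc_congr c hψχ] at hw1
      obtain ⟨m, hm⟩ := hgen w hw1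
      have hK : K (c.ρ k) A ψ = K (c.ρ k) A χ := K_congr _ hψχ
      have hB : Bd c A ψ k = Bd c A χ k := Bd_congr c hψχ k
      refine ⟨m, ?_, ?_, ?_⟩
      · -- m (ε - ψ t) y is a boundary
        have e1 : (m * ((ε : ℤ) - (ψ t : ℤ))) • y =
            c.δ k (x - m • y') - (c.δ k x - dt (c.ρ k) t (ψ t) w) - m • κ₀
              - dt (c.ρ k) t (ψ t) (w - m • y) := by
          have e2 : c.δ k y' = dt (c.ρ k) t ε y - κ₀ := by rw [ey]; abel
          rw [map_sub, map_zsmul, e2, map_sub, map_zsmul, dt_apply, dt_apply (c.ρ k) t (ψ t) y,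
            smul_sub, smul_sub, smul_sub, mul_smul, sub_smul, smul_sub]
          abel
        rw [e1]
        refine AddSubgroup.sub_mem _ (AddSubgroup.sub_mem _ (AddSubgroup.sub_mem _
          (δ_mem_Bd c _ _ _ _) ?_) ?_) ?_
        · exact K_le_Bd _ _ _ _ (hK ▸ hw2)
        · exact AddSubgroup.zsmul_mem _ (K_le_Bd _ _ _ _ hκ₀) _
        · exact dt_Bd c h hinv _ hm
      · intro hψt
        apply ascend c h hψ (hvan ψ (hψ.mono (le_next h)) k le_rfl) (w := w - m • y)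
        · have e1 : c.δ k (x - m • y') - dt (c.ρ k) t (ψ t) (w - m • y) =
              (c.δ k x - dt (c.ρ k) t (ψ t) w) + m • κ₀ := by
            have e2 : c.δ k y' = dt (c.ρ k) t ε y - κ₀ := by rw [ey]; abel
            rw [map_sub, map_zsmul, e2, map_sub, map_zsmul, hψt, smul_sub]
            abel
          rw [e1]
          exact AddSubgroup.add_mem _ hw2 (AddSubgroup.zsmul_mem _ (hK ▸ hκ₀) _)
        · rw [hB]
          exact hm
      · intro hm0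
        rw [hm0, zero_smul, sub_zero] at hm
        apply ascend c h hψ (hvan ψ (hψ.mono (le_next h)) k le_rfl) hw2
        rw [hB]
        exact hm
    refine ⟨χ₁, hχ₁c, y', ?_, ?_, ?_, ?_⟩
    · -- cycle
      show c.δ k y' ∈ K (c.ρ k) (next A t h) χ₁
      have e2 : c.δ k y' = dt (c.ρ k) t (χ₁ t) y - κ₀ := by rw [hχ₁t, ey]; abel
      rw [e2]
      refine AddSubgroup.sub_mem _ (dt_mem_K _ (mem_next h) y) ?_
      rw [← K_congr _ hχ₁A] at hκ₀
      exact K_mono _ (le_next h) _ hκ₀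
    · intro x hx
      obtain ⟨m, -, hm, -⟩ := key χ₁ hχ₁c hχ₁A x hx
      exact ⟨m, hm hχ₁t⟩
    · -- torsion free
      intro m hm
      rw [mem_Bd] at hm
      obtain ⟨u, κ, hκ, e⟩ := hm
      rw [K_next _ h hχ₁c, AddSubgroup.mem_sup] at hκ
      obtain ⟨κ₁, hκ₁, _, ⟨w, rfl⟩, rfl⟩ := hκ
      apply htf
      have e1 := congrArg (c.δ k) e
      rw [map_add, c.sq, zero_add, map_add, δ_dt, map_zsmul] at e1
      have e2 : c.δ k y' = dt (c.ρ k) t (χ₁ t) y - κ₀ := by rw [hχ₁t, ey]; abel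
      rw [e2] at e1
      have e3 : dt (c.ρ k) t (χ₁ t) (m • y - c.δ k w) = m • κ₀ + c.δ k κ₁ := by
        rw [map_sub, map_zsmul]
        rw [smul_sub] at e1
        rw [sub_eq_iff_eq_add] at e1 ⊢
        rw [e1]
        abel
      have hK : K (c.ρ k) A χ₁ = K (c.ρ k) A χ := K_congr _ hχ₁A
      have e4 : m • y - c.δ k w ∈ K (c.ρ k) A χ₁ := by
        apply c.reg A t h χ₁ hχ₁c
        rw [e3, hK]
        exact AddSubgroup.add_mem _ (AddSubgroup.zsmul_mem _ hκ₀ _) (hK ▸ δ_K c hκ₁)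
      have e5 : m • y = c.δ k w + (m • y - c.δ k w) := by abel
      rw [e5]
      exact AddSubgroup.add_mem _ (δ_mem_Bd c _ _ _ _) (K_le_Bd _ _ _ _ (hK ▸ e4))
    · intro ψ hψ hne x hx
      by_cases hψχ : ∀ a ∈ A, ψ a = χ a
      · obtain ⟨m, hm1, -, hm3⟩ := key ψ hψ hψχ x hx
        apply hm3
        have h1 := htf _ hm1
        rcases mul_eq_zero.mp h1 with h2 | h2
        · exact h2
        · exfalso
          apply hne
          have hψt : ψ t = ε := by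
            apply Units.ext
            omega
          rintro _ ⟨a, ha, j, rfl⟩
          rw [hψ a (le_next h ha) _ ((next A t h).zpow_mem (mem_next h) j),
            hψ.zpow (mem_next h), hψt, hψχ a ha, hχ₁, extChar_apply h χ ε ha j]
      · obtain ⟨w, hw1, hw2⟩ := descend c h hψ hx
        apply ascend c h hψ (hvan ψ (hψ.mono (le_next h)) k le_rfl) hw2
        exact huniq ψ (hψ.mono (le_next h)) hψχ w hw1

end Pool.Agent.Lib.P9f173dA
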