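import Pool.Agent.Lib.P9f173dA.Main

/-!
# The reduced group C*-algebra as a ring, with short names
-/

set_option autoImplicit false

namespace Pool.Agent.Lib.P9f173dA

open MonoidAlgebra

universe u

/-- The bounded operators on `ℓ²(G)`. -/
def Ops (G : Type u) : Type u := L2 G →L[ℂ] L2 G

/-- The ring of bounded operators, multiplication being composition. -/
noncomputable instance instRingOps (G : Type u) : Ring (Ops G) :=
  (ContinuousLinearMap.ring : Ring (L2 G →L[ℂ] L2 G))

/-- The operator norm topology. -/
noncomputable instance instTopOps (G : Type u) : TopologicalSpace (Ops G) :=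
  (ContinuousLinearMap.topologicalSpace : TopologicalSpace (L2 G →L[ℂ] L2 G))

instance instTopRingOps (G : Type u) : IsTopologicalRing (Ops G) :=
  (inferInstance : IsTopologicalRing (L2 G →L[ℂ] L2 G))

variable {G : Type u} [Group G]

/-- left translation by `g` followed by multiplication by the complex number `c` -/
noncomputable def scFun (c : ℂ) (g : G) (ξ : L2 G) : L2 G := c • lamFun g ξ

theorem scFun_add (c : ℂ) (g : G) (ξ η : L2 G) :
    scFun c g (ξ + η) = scFun c g ξ + scFun c g η :=
  smul_add c (lamFun g ξ) (lamFun g η)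

theorem scFun_smul (c : ℂ) (g : G) (a : ℂ) (ξ : L2 G) :
    scFun c g (a • ξ) = a • scFun c g ξ :=
  smul_comm c a (lamFun g ξ)

theorem norm_scFun (c : ℂ) (g : G) (ξ : L2 G) : ‖scFun c g ξ‖ ≤ ‖c‖ * ‖ξ‖ := by
  unfold scFun
  rw [norm_smul, norm_lamFun]

/-- The operator `c • lam g`, for `c` a complex number. -/
noncomputable def scLam (c : ℂ) (g : G) : Ops G :=
  LinearMap.mkContinuous
    { toFun := scFun c g
      map_add' := scFun_add c g
      map_smul' := scFun_smul c g } ‖c‖ (norm_scFun c g)

theorem scLam_eq (c : ℂ) (g : G) : scLam c g = (c • lam g : L2 G →L[ℂ] L2 G) := rfl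

theorem scLam_one (g : G) : scLam 1 g = (lam g : L2 G →L[ℂ] L2 G) := one_smul ℂ (lam g)

variable (G)

/-- The reduced group C*-algebra: the closure, in the operator norm topology, of the ring of
operators generated by the `c • lam g`, that is of the complex group ring acting on `ℓ²(G)` by
left translations. -/
noncomputable def redAlg : Subring (Ops G) :=
  (Subring.closure {T : Ops G | ∃ (c : ℂ) (g : G), T = scLam c g}).topologicalClosure

/-- The reduced group C*-algebra, as a type. -/
def CRed : Type u := redAlg G

noncomputable instance instRingCRed : Ring (CRed G) := (redAlg G).toRing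

theorem lam_mem_redAlg (g : G) : (lam g : Ops G) ∈ redAlg G :=
  Subring.le_topologicalClosure _ (Subring.subset_closure ⟨1, g, (scLam_one g).symm⟩)

/-- Left translations, as a homomorphism from `G` to the reduced group C*-algebra. -/
noncomputable def lreg : G →* CRed G where
  toFun g := ⟨lam g, lam_mem_redAlg G g⟩
  map_one' := Subtype.ext lam_one
  map_mul' g h := Subtype.ext (lam_mul g h)

/-- The integral group ring maps to the reduced group C*-algebra, `g` going to `lam g`. -/
noncomputable def toCRed : MonoidAlgebra ℤ G →+* CRed G :=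
  (MonoidAlgebra.lift ℤ (CRed G) G (lreg G)).toRingHom

variable {G}

theorem toCRed_single (g : G) : (toCRed G (single g (1 : ℤ))).1 = (lam g : L2 G →L[ℂ] L2 G) := by
  have h1 : toCRed G (single g (1 : ℤ)) = lreg G g := by
    show MonoidAlgebra.lift ℤ (CRed G) G (lreg G) (single g (1 : ℤ)) = _
    rw [MonoidAlgebra.lift_single, one_smul]
  rw [h1]
  rfl

theorem toCRed_coe (x : MonoidAlgebra ℤ G) : (redAlg G).subtype (toCRed G x) = op x := by
  induction x using MonoidAlgebra.induction_on with
  | of g =>
    have h1 := op_single g (1 : ℤ)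
    rw [Int.cast_one, one_smul] at h1
    rw [MonoidAlgebra.of_apply, h1]
    exact toCRed_single g
  | add x y hx hy =>
    rw [map_add, op_add, ← hx, ← hy]
    exact map_add (redAlg G).subtype _ _
  | smul c x hx =>
    rw [map_zsmul, op_zsmul, ← hx]
    have h2 := map_zsmul (redAlg G).subtype c (toCRed G x)
    have h3 : ∀ T : L2 G →L[ℂ] L2 G, (c : ℂ) • T = c • T := fun T => Int.cast_smul_eq_zsmul ℂ c T
    exact h2.trans (h3 _).symm

theorem main_red {n : ℕ} (F : FiniteFreeResolution G n) {t : Fin n → G} (ht : IsPolyZ t) :
    ∃ i, ¬ HomologyVanishes F (toCRed G) i :=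
  main F ht (toCRed G) (redAlg G).subtype toCRed_coe

end Pool.Agent.Lib.P9f173dA
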