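import Pool.Agent.Lib.P9f173dA.Hilb

/-!
# Almost invariant vectors for poly-infinite-cyclic groups, twisted by a sign character
-/

set_option autoImplicit false

namespace Pool.Agent.Lib.P9f173dA

universe u

variable {G : Type u} [Group G]

/-- the complex number given by a sign -/
noncomputable def sg (ε : ℤˣ) : ℂ := ((ε : ℤ) : ℂ)

theorem sg_mul (ε ε' : ℤˣ) : sg (ε * ε') = sg ε * sg ε' := by simp [sg]

theorem sg_one : sg 1 = 1 := by simp [sg]

theorem sg_sq (ε : ℤˣ) : sg ε * sg ε = 1 := by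
  rw [← sg_mul, Int.units_mul_self, sg_one]

theorem norm_sg (ε : ℤˣ) : ‖sg ε‖ = 1 := by
  rcases Int.units_eq_one_or ε with h | h <;> simp [h, sg]

theorem sg_pow (ε : ℤˣ) (j : ℕ) : sg (ε ^ j) = sg ε ^ j := by simp [sg]

/-- `A` has almost `χ`-invariant unit vectors. -/
def Fo (A : Subgroup G) (χ : G → ℤˣ) : Prop :=
  ∀ (S : Finset G), (∀ a ∈ S, a ∈ A) → ∀ ε : ℝ, 0 < ε →
    ∃ ξ : L2 G, ‖ξ‖ = 1 ∧ (∀ h, h ∉ A → ξ h = 0) ∧ ∀ a ∈ S, ‖lam a ξ - sg (χ a) • ξ‖ ≤ ε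

theorem Fo_congr {A : Subgroup G} {χ χ' : G → ℤˣ} (h : ∀ a ∈ A, χ a = χ' a) (hF : Fo A χ) :
    Fo A χ' := by
  intro S hS ε hε
  obtain ⟨ξ, h1, h2, h3⟩ := hF S hS ε hε
  refine ⟨ξ, h1, h2, fun a ha => ?_⟩
  rw [← h a (hS a ha)]
  exact h3 a ha

theorem Fo_bot {χ : G → ℤˣ} (hχ : IsChar (⊥ : Subgroup G) χ) : Fo (⊥ : Subgroup G) χ := by
  classical
  intro S hS ε hε
  refine ⟨lp.single 2 (1 : G) (1 : ℂ), ?_, ?_, ?_⟩
  · rw [lp.norm_single (by norm_num)]
    simp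
  · intro h hh
    rw [Subgroup.mem_bot] at hh
    rw [lp.single_apply]
    simp [hh]
  · intro a ha
    have := hS a ha
    rw [Subgroup.mem_bot] at this
    subst this
    rw [hχ.one, sg_one, lam_one, one_smul]
    simp [hε.le]

/-- the averaged vector (not normalised) -/
noncomputable def avg (t : G) (ε : ℤˣ) (N : ℕ) (ξ : L2 G) : L2 G :=
  ∑ j ∈ Finset.range N, sg ε ^ j • lam (t ^ j) ξ

theorem avg_supp {A : Subgroup G} {t : G} (h : Step A t) (ε : ℤˣ) (N : ℕ) {ξ : L2 G}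
    (hξ : ∀ h, h ∉ A → ξ h = 0) (g : G) (hg : g ∉ next A t h) : avg t ε N ξ g = 0 := by
  unfold avg
  rw [lp.coeFn_sum, Finset.sum_apply]
  apply Finset.sum_eq_zero
  intro j _
  rw [lp.coeFn_smul, Pi.smul_apply, lam_apply, hξ, smul_zero]
  intro h1
  apply hg
  have h2 : g = t ^ j * ((t ^ j)⁻¹ * g) := by group
  rw [h2]
  exact (next A t h).mul_mem ((next A t h).pow_mem (mem_next h) j) (le_next h h1)

theorem norm_avg {A : Subgroup G} {t : G} (h : Step A t) (ε : ℤˣ) (N : ℕ) {ξ : L2 G}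
    (hξ : ∀ h, h ∉ A → ξ h = 0) (h1 : ‖ξ‖ = 1) : ‖avg t ε N ξ‖ ^ 2 = N := by
  have horth : ∀ i j : ℕ, i ≠ j →
      inner ℂ (sg ε ^ i • lam (t ^ i) ξ) (sg ε ^ j • lam (t ^ j) ξ) = 0 := by
    intro i j hij
    apply inner_eq_zero_of_disjoint
    intro g
    rw [lp.coeFn_smul, Pi.smul_apply, lam_apply, lp.coeFn_smul, Pi.smul_apply, lam_apply]
    by_cases hi : (t ^ i)⁻¹ * g ∈ A
    · right
      rw [hξ, smul_zero]
      intro hj
      apply hij
      have h3 : t ^ ((i : ℤ) - (j : ℤ)) ∈ A := by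
        -- (t^i)⁻¹ g = a, (t^j)⁻¹ g = b, t^(i-j) = b' a'⁻¹ conjugated
        have h4 := A.mul_mem hj (A.inv_mem hi)
        have h5 : (t ^ j)⁻¹ * g * ((t ^ i)⁻¹ * g)⁻¹ = t ^ ((i : ℤ) - (j : ℤ)) := by
          rw [sub_eq_neg_add, zpow_add, zpow_neg, zpow_natCast, zpow_natCast]
          group
        rwa [h5] at h4
      have := h.inf _ h3
      omega
    · left
      rw [hξ _ hi, smul_zero]
  have h2 : inner ℂ (avg t ε N ξ) (avg t ε N ξ) = (N : ℂ) := by
    unfold avg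
    rw [sum_inner]
    have h3 : ∀ i ∈ Finset.range N, inner ℂ (sg ε ^ i • lam (t ^ i) ξ)
        (∑ j ∈ Finset.range N, sg ε ^ j • lam (t ^ j) ξ) = 1 := by
      intro i hi
      rw [inner_sum, Finset.sum_eq_single i]
      · rw [inner_self_eq_norm_sq_to_K, norm_smul, norm_pow, norm_sg, one_pow, one_mul, norm_lam,
          h1]
        simp
      · intro j _ hji
        exact horth i j hji.symm
      · intro hn
        exact absurd hi hn
    rw [Finset.sum_congr rfl h3]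
    simp
  rw [inner_self_eq_norm_sq_to_K] at h2
  rw [← Complex.ofReal_inj]
  push_cast
  exact h2

theorem avg_shift (t : G) (ε : ℤˣ) (N : ℕ) (ξ : L2 G) :
    ‖lam t (avg t ε N ξ) - sg ε • avg t ε N ξ‖ ≤ 2 * ‖ξ‖ := by
  have e : lam t (avg t ε N ξ) - sg ε • avg t ε N ξ =
      sg ε • (sg ε ^ N • lam (t ^ N) ξ - ξ) := by
    unfold avg
    have h1 : lam t (∑ j ∈ Finset.range N, sg ε ^ j • lam (t ^ j) ξ) =
        sg ε • ∑ j ∈ Finset.range N, sg ε ^ (j + 1) • lam (t ^ (j + 1)) ξ := by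
      rw [map_sum, Finset.smul_sum]
      refine Finset.sum_congr rfl fun j _ => ?_
      rw [map_smul, smul_smul, pow_succ (sg ε), ← mul_assoc, mul_comm (sg ε), mul_assoc, sg_sq,
        mul_one, pow_succ' t, lam_mul]
      rfl
    rw [h1, ← smul_sub, ← Finset.sum_sub_distrib,
      Finset.sum_range_sub (fun j => sg ε ^ j • lam (t ^ j) ξ)]
    simp [lam_one]
  rw [e, norm_smul, norm_sg, one_mul]
  calc ‖sg ε ^ N • lam (t ^ N) ξ - ξ‖ ≤ ‖sg ε ^ N • lam (t ^ N) ξ‖ + ‖ξ‖ := norm_sub_le _ _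
    _ = 2 * ‖ξ‖ := by
      rw [norm_smul, norm_pow, norm_sg, one_pow, one_mul, norm_lam]
      ring

theorem zpow_shift (t : G) (ε : ℤˣ) (η : L2 G) (m : ℤ) :
    ‖lam (t ^ m) η - sg (ε ^ m) • η‖ ≤ |(m : ℝ)| * ‖lam t η - sg ε • η‖ := by
  set D := ‖lam t η - sg ε • η‖ with hD
  have hpos : ∀ k : ℕ, ‖lam (t ^ k) η - sg (ε ^ k) • η‖ ≤ (k : ℝ) * D := by
    intro k
    induction k with
    | zero => simp [lam_one, sg_one]
    | succ k ih =>
      have e : lam (t ^ (k + 1)) η - sg (ε ^ (k + 1)) • η =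
          lam (t ^ k) (lam t η - sg ε • η) + sg ε • (lam (t ^ k) η - sg (ε ^ k) • η) := by
        rw [map_sub, map_smul, pow_succ t, lam_mul, pow_succ ε, sg_mul, smul_sub, smul_smul,
          mul_comm (sg ε)]
        show lam (t ^ k) (lam t η) - _ = _
        abel
      rw [e]
      calc _ ≤ ‖lam (t ^ k) (lam t η - sg ε • η)‖ +
            ‖sg ε • (lam (t ^ k) η - sg (ε ^ k) • η)‖ := norm_add_le _ _
        _ ≤ D + (k : ℝ) * D := by
          rw [norm_lam, norm_smul, norm_sg, one_mul]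
          exact add_le_add le_rfl ih
        _ = ((k + 1 : ℕ) : ℝ) * D := by push_cast; ring
  rcases Int.eq_nat_or_neg m with ⟨k, rfl | rfl⟩
  · rw [zpow_natCast, zpow_natCast]
    have : |((k : ℤ) : ℝ)| = k := by simp
    rw [this]
    exact hpos k
  · have e : lam (t ^ (-(k : ℤ))) η - sg (ε ^ (-(k : ℤ))) • η =
        - (sg (ε ^ k) • lam (t ^ (-(k : ℤ))) (lam (t ^ k) η - sg (ε ^ k) • η)) := by
      rw [map_sub, map_smul, smul_sub, smul_smul, sg_sq, one_smul]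
      have h1 : lam (t ^ (-(k : ℤ))) (lam (t ^ k) η) = η := by
        have : lam (t ^ (-(k : ℤ))) * lam (t ^ k) = 1 := by
          rw [← lam_mul, zpow_neg, zpow_natCast, inv_mul_cancel, lam_one]
        exact congrArg (fun T : L2 G →L[ℂ] L2 G => T η) this
      have h2 : ε ^ (-(k : ℤ)) = ε ^ k := by
        rw [zpow_neg, zpow_natCast, Int.units_inv_eq_self]
      rw [h1, h2]
      abel
    rw [e, norm_neg, norm_smul, norm_sg, one_mul, norm_lam]
    have : |((-(k : ℤ) : ℤ) : ℝ)| = k := by simp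
    rw [this]
    exact hpos k

theorem avg_inner_shift {t : G} {χ : G → ℤˣ} {ε : ℤˣ} {N : ℕ} {ξ : L2 G}
    {a : G} {e' : ℝ} (ha : ∀ j < N, χ (((t ^ j)⁻¹ * a * t ^ j)) = χ a)
    (he : ∀ j < N, ‖lam ((t ^ j)⁻¹ * a * t ^ j) ξ - sg (χ ((t ^ j)⁻¹ * a * t ^ j)) • ξ‖ ≤ e') :
    ‖lam a (avg t ε N ξ) - sg (χ a) • avg t ε N ξ‖ ≤ N * e' := by
  have e : lam a (avg t ε N ξ) - sg (χ a) • avg t ε N ξ =
      ∑ j ∈ Finset.range N, sg ε ^ j • lam (t ^ j)
        (lam ((t ^ j)⁻¹ * a * t ^ j) ξ - sg (χ ((t ^ j)⁻¹ * a * t ^ j)) • ξ) := by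
    unfold avg
    rw [map_sum, Finset.smul_sum, ← Finset.sum_sub_distrib]
    refine Finset.sum_congr rfl fun j hj => ?_
    rw [ha j (Finset.mem_range.mp hj), map_smul, map_sub, map_smul, smul_sub, smul_comm]
    congr 2
    have : lam a * lam (t ^ j) = lam (t ^ j) * lam ((t ^ j)⁻¹ * a * t ^ j) := by
      rw [← lam_mul, ← lam_mul]
      congr 1
      group
    exact congrArg (fun T : L2 G →L[ℂ] L2 G => T ξ) this
  rw [e]
  calc _ ≤ ∑ j ∈ Finset.range N, ‖sg ε ^ j • lam (t ^ j)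
        (lam ((t ^ j)⁻¹ * a * t ^ j) ξ - sg (χ ((t ^ j)⁻¹ * a * t ^ j)) • ξ)‖ := norm_sum_le _ _
    _ ≤ ∑ j ∈ Finset.range N, e' := by
      apply Finset.sum_le_sum
      intro j hj
      rw [norm_smul, norm_pow, norm_sg, one_pow, one_mul, norm_lam]
      exact he j (Finset.mem_range.mp hj)
    _ = N * e' := by simp

theorem Fo_step {A : Subgroup G} {t : G} (h : Step A t) {χ : G → ℤˣ}
    (hχ : IsChar (next A t h) χ) (hF : Fo A χ) : Fo (next A t h) χ := by
  classical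
  intro S hS ε hε
  -- decompositions
  have hdec : ∀ s : G, ∃ a : G, ∃ m : ℤ, s ∈ S → a ∈ A ∧ s = a * t ^ m := by
    intro s
    by_cases hs : s ∈ S
    · obtain ⟨a, ha, m, hm⟩ := hS s hs
      exact ⟨a, m, fun _ => ⟨ha, hm⟩⟩
    · exact ⟨1, 0, fun h => absurd h hs⟩
  choose a m ham using hdec
  set M : ℝ := ∑ s ∈ S, |(m s : ℝ)| with hM
  have hM0 : 0 ≤ M := Finset.sum_nonneg fun s _ => abs_nonneg _
  obtain ⟨N, hN⟩ := exists_nat_gt (max 1 ((4 * M / ε) ^ 2))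
  have hN1 : (1 : ℝ) < N := lt_of_le_of_lt (le_max_left _ _) hN
  have hN2 : (4 * M / ε) ^ 2 < N := lt_of_le_of_lt (le_max_right _ _) hN
  have hN0 : (0 : ℝ) < N := by linarith
  have hsq : 0 < Real.sqrt N := Real.sqrt_pos.mpr hN0
  have hsq2 : Real.sqrt N * Real.sqrt N = N := Real.mul_self_sqrt hN0.le
  have hMN : 4 * M / ε ≤ Real.sqrt N := by
    apply Real.le_sqrt_of_sq_le
    exact hN2.le
  obtain ⟨ξ, hξ1, hξ2, hξ3⟩ := hF
    ((S ×ˢ Finset.range N).image (fun x => (t ^ x.2)⁻¹ * a x.1 * t ^ x.2))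
    (by
      intro g hg
      rw [Finset.mem_image] at hg
      obtain ⟨⟨s, j⟩, hsj, rfl⟩ := hg
      rw [Finset.mem_product] at hsj
      have h1 := (ham s hsj.1).1
      have h2 := conj_zpow_mem h (fun b hb => hχ.conj (mem_next h) (le_next h hb)) (-(j : ℤ)) _ h1
      have h3 := h2.1
      rwa [zpow_neg, zpow_natCast, inv_inv] at h3)
    (ε / (2 * Real.sqrt N)) (by positivity)
  refine ⟨((Real.sqrt N : ℝ) : ℂ)⁻¹ • avg t (χ t) N ξ, ?_, ?_, ?_⟩
  · have h1 := norm_avg h (χ t) N hξ2 hξ1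
    have h2 : ‖avg t (χ t) N ξ‖ = Real.sqrt N := by
      rw [← h1, Real.sqrt_sq (norm_nonneg _)]
    rw [norm_smul, norm_inv, Complex.norm_real, Real.norm_eq_abs, abs_of_pos hsq, h2,
      inv_mul_cancel₀ hsq.ne']
  · intro g hg
    rw [lp.coeFn_smul, Pi.smul_apply, avg_supp h (χ t) N hξ2 g hg, smul_zero]
  · intro s hs
    obtain ⟨ha, hsm⟩ := ham s hs
    set c : ℂ := ((Real.sqrt N : ℝ) : ℂ)⁻¹ with hc
    set η : L2 G := avg t (χ t) N ξ with hη
    have hcn : ‖c‖ = (Real.sqrt N)⁻¹ := by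
      rw [hc, norm_inv, Complex.norm_real, Real.norm_eq_abs, abs_of_pos hsq]
    have b1 : ‖lam (a s) η - sg (χ (a s)) • η‖ ≤ N * (ε / (2 * Real.sqrt N)) := by
      apply avg_inner_shift
      · intro j _
        have h2 := conj_zpow_mem h (fun b hb => hχ.conj (mem_next h) (le_next h hb)) (-(j : ℤ)) _ ha
        rw [zpow_neg, zpow_natCast, inv_inv] at h2
        exact h2.2
      · intro j hj
        apply hξ3
        rw [Finset.mem_image]
        exact ⟨(s, j), Finset.mem_product.mpr ⟨hs, Finset.mem_range.mpr hj⟩, rfl⟩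
    have b2 : ‖lam (t ^ m s) η - sg (χ t ^ m s) • η‖ ≤ |(m s : ℝ)| * 2 := by
      refine (zpow_shift t (χ t) η (m s)).trans ?_
      apply mul_le_mul_of_nonneg_left _ (abs_nonneg _)
      have := avg_shift t (χ t) N ξ
      rwa [hξ1, mul_one] at this
    have hmM : |(m s : ℝ)| ≤ M :=
      Finset.single_le_sum (f := fun s => |(m s : ℝ)|) (fun _ _ => abs_nonneg _) hs
    have e : lam s (c • η) - sg (χ s) • c • η =
        c • (lam (a s) (lam (t ^ m s) η - sg (χ t ^ m s) • η) +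
          sg (χ t ^ m s) • (lam (a s) η - sg (χ (a s)) • η)) := by
      have hχs : χ s = χ (a s) * χ t ^ m s := by
        conv_lhs => rw [hsm]
        rw [hχ _ (le_next h ha) _ ((next A t h).zpow_mem (mem_next h) _), hχ.zpow (mem_next h)]
      have hls : lam s η = lam (a s) (lam (t ^ m s) η) := by
        conv_lhs => rw [hsm, lam_mul]
        rfl
      rw [map_smul, hls, hχs, sg_mul, smul_comm, ← smul_sub, map_sub, map_smul, smul_sub (sg _),
        smul_smul (sg (χ t ^ m s)), mul_comm (sg (χ t ^ m s))]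
      congr 1
      abel
    rw [e, norm_smul, hcn]
    have b3 : ‖lam (a s) (lam (t ^ m s) η - sg (χ t ^ m s) • η) +
          sg (χ t ^ m s) • (lam (a s) η - sg (χ (a s)) • η)‖ ≤
          2 * M + N * (ε / (2 * Real.sqrt N)) := by
      refine (norm_add_le _ _).trans ?_
      rw [norm_lam, norm_smul, norm_sg, one_mul]
      linarith
    have b4 : (N : ℝ) * (ε / (2 * Real.sqrt N)) = Real.sqrt N * (ε / 2) := by
      have h5 : (N : ℝ) / Real.sqrt N = Real.sqrt N := Real.div_sqrt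
      calc (N : ℝ) * (ε / (2 * Real.sqrt N)) = ((N : ℝ) / Real.sqrt N) * (ε / 2) := by ring
        _ = _ := by rw [h5]
    calc (Real.sqrt N)⁻¹ * _ ≤ (Real.sqrt N)⁻¹ * (2 * M + N * (ε / (2 * Real.sqrt N))) :=
          mul_le_mul_of_nonneg_left b3 (inv_nonneg.mpr hsq.le)
      _ = (Real.sqrt N)⁻¹ * (2 * M) + ε / 2 := by
          rw [b4, mul_add, ← mul_assoc (Real.sqrt N)⁻¹ (Real.sqrt N), inv_mul_cancel₀ hsq.ne',
            one_mul]
      _ ≤ ε / 2 + ε / 2 := by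
          apply add_le_add _ le_rfl
          rw [inv_mul_le_iff₀ hsq]
          rw [div_le_iff₀ hε] at hMN
          linarith
      _ = ε := by ring

end Pool.Agent.Lib.P9f173dA
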