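import Pool.Agent.Lib.P9f173dA.Chain

/-!
# Free modules over the integral group ring
-/

set_option autoImplicit false

namespace Pool.Agent.Lib.P9f173dA

open MonoidAlgebra

universe u

variable {G : Type u} [Group G]

/-- left multiplication on the group ring -/
noncomputable def actOne (G : Type u) [Group G] : Act G (MonoidAlgebra ℤ G) where
  f := fun g => AddMonoidHom.mulLeft (single g (1 : ℤ))
  one := fun x => by
    show single (1 : G) (1 : ℤ) * x = x
    rw [← one_def, one_mul]
  mul := fun g h x => by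
    show single (g * h) (1 : ℤ) * x = single g 1 * (single h 1 * x)
    rw [← mul_assoc, single_mul_single, one_mul]

theorem actOne_apply (g : G) (x : MonoidAlgebra ℤ G) :
    (actOne G).f g x = single g (1 : ℤ) * x := rfl

/-- left multiplication on a free module -/
noncomputable def actFree (G : Type u) [Group G] (r : ℕ) :
    Act G (Fin r → MonoidAlgebra ℤ G) where
  f := fun g =>
    { toFun := fun x j => single g (1 : ℤ) * x j
      map_zero' := by funext j; simp
      map_add' := fun x y => by funext j; simp [mul_add] }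
  one := fun x => by
    funext j
    show single (1 : G) (1 : ℤ) * x j = x j
    rw [← one_def, one_mul]
  mul := fun g h x => by
    funext j
    show single (g * h) (1 : ℤ) * x j = single g 1 * (single h 1 * x j)
    rw [← mul_assoc, single_mul_single, one_mul]

theorem actFree_apply (r : ℕ) (g : G) (x : Fin r → MonoidAlgebra ℤ G) (j : Fin r) :
    (actFree G r).f g x j = single g (1 : ℤ) * x j := rfl

open scoped Classical in
/-- twisted coset sums -/
noncomputable def th (A : Subgroup G) (χ : G → ℤˣ) (g : G) : MonoidAlgebra ℤ G →+ ℤ :=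
  (Finsupp.liftAddHom (fun h : G => if h * g⁻¹ ∈ A then
    AddMonoidHom.mulLeft (((χ (h * g⁻¹) : ℤˣ)) : ℤ) else 0)).comp
      (coeffAddEquiv (R := ℤ) (M := G)).toAddMonoidHom

open scoped Classical in
theorem th_single (A : Subgroup G) (χ : G → ℤˣ) (g h : G) (c : ℤ) :
    th A χ g (single h c) = if h * g⁻¹ ∈ A then (((χ (h * g⁻¹) : ℤˣ)) : ℤ) * c else 0 := by
  unfold th
  rw [AddMonoidHom.comp_apply]
  show Finsupp.liftAddHom _ (single h c).coeff = _
  rw [coeff_single, Finsupp.liftAddHom_apply_single]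
  split_ifs <;> rfl

theorem th_mul {A : Subgroup G} {χ : G → ℤˣ} (hχ : IsChar A χ) {a : G} (ha : a ∈ A) (g : G)
    (x : MonoidAlgebra ℤ G) :
    th A χ g (single a (1 : ℤ) * x) = ((χ a : ℤˣ) : ℤ) * th A χ g x := by
  classical
  induction x using MonoidAlgebra.induction with
  | zero => simp
  | single_add h c x _ _ ih =>
    rw [mul_add, map_add, map_add, mul_add, ih, single_mul_single, one_mul, th_single, th_single]
    congr 1
    by_cases hh : h * g⁻¹ ∈ A
    · have h1 : a * h * g⁻¹ ∈ A := by rw [mul_assoc]; exact A.mul_mem ha hh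
      rw [if_pos h1, if_pos hh, mul_assoc a, hχ a ha _ hh, Units.val_mul, mul_assoc]
    · have h1 : ¬ a * h * g⁻¹ ∈ A := by
        rw [mul_assoc]
        intro h2
        apply hh
        have := A.mul_mem (A.inv_mem ha) h2
        rwa [inv_mul_cancel_left] at this
      rw [if_neg h1, if_neg hh, mul_zero]

theorem th_shift {A : Subgroup G} {t : G} (h : Step A t) {χ : G → ℤˣ}
    (hinv : ∀ a ∈ A, χ (t * a * t⁻¹) = χ a) (g : G) (x : MonoidAlgebra ℤ G) :
    th A χ g (single t (1 : ℤ) * x) = th A χ (t⁻¹ * g) x := by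
  classical
  induction x using MonoidAlgebra.induction with
  | zero => simp
  | single_add k c x _ _ ih =>
    rw [mul_add, map_add, map_add, ih, single_mul_single, one_mul, th_single, th_single]
    congr 1
    have e1 : k * (t⁻¹ * g)⁻¹ = t⁻¹ * (t * k * g⁻¹) * t := by group
    by_cases hh : t * k * g⁻¹ ∈ A
    · have h1 : k * (t⁻¹ * g)⁻¹ ∈ A := by rw [e1]; exact h.conj' _ hh
      rw [if_pos hh, if_pos h1]
      congr 2
      have := hinv _ h1
      rw [← this]
      congr 1
      group
    · have h1 : ¬ k * (t⁻¹ * g)⁻¹ ∈ A := by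
        intro h2
        apply hh
        have := h.conj _ h2
        have e2 : t * (k * (t⁻¹ * g)⁻¹) * t⁻¹ = t * k * g⁻¹ := by group
        rwa [e2] at this
      rw [if_neg hh, if_neg h1]

theorem th_of_mem_K {A : Subgroup G} {χ : G → ℤˣ} (hχ : IsChar A χ) {r : ℕ}
    {x : Fin r → MonoidAlgebra ℤ G} (hx : x ∈ K (actFree G r) A χ) (j : Fin r) (g : G) :
    th A χ g (x j) = 0 := by
  have : K (actFree G r) A χ ≤
      ((th A χ g).comp (Pi.evalAddMonoidHom (fun _ : Fin r => MonoidAlgebra ℤ G) j)).ker := by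
    apply K_le
    intro a ha x
    rw [AddMonoidHom.mem_ker, AddMonoidHom.comp_apply]
    show th A χ g (single a (1 : ℤ) * x j - ((χ a : ℤˣ) : ℤ) • x j) = 0
    rw [map_sub, th_mul hχ ha, map_zsmul, smul_eq_mul, sub_self]
  exact this hx

/-- coset representatives -/
noncomputable def rep (A : Subgroup G) (h : G) : G :=
  (Quotient.mk (QuotientGroup.rightRel A) h).out

theorem rep_mem (A : Subgroup G) (h : G) : h * (rep A h)⁻¹ ∈ A := by
  have h1 : (QuotientGroup.rightRel A).r (rep A h) h :=
    Quotient.mk_out (s := QuotientGroup.rightRel A) h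
  exact QuotientGroup.rightRel_apply.mp h1

theorem rep_eq {A : Subgroup G} {h k : G} (hk : h * k⁻¹ ∈ A) : rep A h = rep A k := by
  unfold rep
  congr 1
  apply Quotient.sound
  show (QuotientGroup.rightRel A).r h k
  apply QuotientGroup.rightRel_apply.mpr
  have := A.inv_mem hk
  rwa [mul_inv_rev, inv_inv] at this

/-- projection onto the span of the representatives -/
noncomputable def psi (A : Subgroup G) (χ : G → ℤˣ) : MonoidAlgebra ℤ G →+ MonoidAlgebra ℤ G :=
  (Finsupp.liftAddHom (fun h : G => (singleAddHom (R := ℤ) (rep A h)).comp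
    (AddMonoidHom.mulLeft (((χ (h * (rep A h)⁻¹) : ℤˣ)) : ℤ)))).comp
      (coeffAddEquiv (R := ℤ) (M := G)).toAddMonoidHom

theorem psi_single (A : Subgroup G) (χ : G → ℤˣ) (h : G) (c : ℤ) :
    psi A χ (single h c) = single (rep A h) ((((χ (h * (rep A h)⁻¹) : ℤˣ)) : ℤ) * c) := by
  unfold psi
  rw [AddMonoidHom.comp_apply]
  show Finsupp.liftAddHom _ (single h c).coeff = _
  rw [coeff_single, Finsupp.liftAddHom_apply_single]
  rfl

theorem sub_psi_mem {A : Subgroup G} {χ : G → ℤˣ} (x : MonoidAlgebra ℤ G) :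
    x - psi A χ x ∈ K (actOne G) A χ := by
  induction x using MonoidAlgebra.induction with
  | zero =>
    rw [map_zero, sub_zero]
    exact AddSubgroup.zero_mem _
  | single_add h c x _ _ ih =>
    have e : single h c + x - psi A χ (single h c + x) =
        (single h c - psi A χ (single h c)) + (x - psi A χ x) := by
      rw [map_add]
      abel
    rw [e]
    apply AddSubgroup.add_mem _ _ ih
    rw [psi_single]
    have h1 := mem_K (actOne G) (χ := χ) (rep_mem A h) (single (rep A h) c)
    rw [actOne_apply, single_mul_single, one_mul, inv_mul_cancel_right] at h1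
    have h2 : (((χ (h * (rep A h)⁻¹) : ℤˣ)) : ℤ) • (single (rep A h) c : MonoidAlgebra ℤ G) =
        single (rep A h) ((((χ (h * (rep A h)⁻¹) : ℤˣ)) : ℤ) * c) := by
      rw [smul_single, smul_eq_mul]
    rw [h2] at h1
    exact h1

theorem psi_coeff {A : Subgroup G} {χ : G → ℤˣ} (x : MonoidAlgebra ℤ G) (g : G)
    (hg : rep A g = g) : (psi A χ x).coeff g = th A χ g x := by
  classical
  induction x using MonoidAlgebra.induction with
  | zero => simp
  | single_add h c x _ _ ih =>
    rw [map_add, map_add, coeff_add, Finsupp.add_apply, ih, psi_single, th_single]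
    congr 1
    rw [coeff_single, Finsupp.single_apply]
    by_cases h1 : h * g⁻¹ ∈ A
    · have h2 : rep A h = g := by rw [rep_eq h1, hg]
      rw [if_pos h2, if_pos h1, h2]
    · have h2 : ¬ rep A h = g := by
        intro h3
        apply h1
        rw [← h3]
        exact rep_mem A h
      rw [if_neg h2, if_neg h1]

theorem psi_coeff' {A : Subgroup G} {χ : G → ℤˣ} (x : MonoidAlgebra ℤ G) (g : G)
    (hg : rep A g ≠ g) : (psi A χ x).coeff g = 0 := by
  classical
  induction x using MonoidAlgebra.induction with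
  | zero => simp
  | single_add h c x _ _ ih =>
    rw [map_add, coeff_add, Finsupp.add_apply, ih, psi_single, add_zero,
      coeff_single, Finsupp.single_apply, if_neg]
    intro h3
    apply hg
    have h4 : rep A h = rep A (rep A h) := rep_eq (rep_mem A h)
    rw [h3] at h4
    exact h4.symm

theorem mem_K_one {A : Subgroup G} {χ : G → ℤˣ} {x : MonoidAlgebra ℤ G}
    (h : ∀ g, th A χ g x = 0) : x ∈ K (actOne G) A χ := by
  have h1 : psi A χ x = 0 := by
    ext g
    by_cases hg : rep A g = g
    · rw [psi_coeff x g hg, h g]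
      rfl
    · rw [psi_coeff' x g hg]
      rfl
  have := sub_psi_mem (A := A) (χ := χ) x
  rwa [h1, sub_zero] at this

theorem mem_K_free {A : Subgroup G} {χ : G → ℤˣ} {r : ℕ} {x : Fin r → MonoidAlgebra ℤ G}
    (h : ∀ j g, th A χ g (x j) = 0) : x ∈ K (actFree G r) A χ := by
  classical
  have h1 : ∀ j, K (actOne G) A χ ≤ (K (actFree G r) A χ).comap
      (AddMonoidHom.single (fun _ : Fin r => MonoidAlgebra ℤ G) j) := by
    intro j
    apply K_le
    intro a ha y
    rw [AddSubgroup.mem_comap]
    have h2 := mem_K (actFree G r) (χ := χ) ha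
      (AddMonoidHom.single (fun _ : Fin r => MonoidAlgebra ℤ G) j y)
    convert h2 using 1
    rw [map_sub, map_zsmul]
    congr 1
    funext i
    rw [actFree_apply, actOne_apply]
    by_cases hij : i = j
    · subst hij
      simp
    · simp [hij]
  have h2 : x = ∑ j, AddMonoidHom.single (fun _ : Fin r => MonoidAlgebra ℤ G) j (x j) := by
    funext i
    simp only [AddMonoidHom.single_apply, Finset.sum_apply]
    rw [Finset.sum_eq_single i]
    · simp
    · intro j _ hji
      simp [Pi.single_apply, hji.symm]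
    · intro h
      exact absurd (Finset.mem_univ _) h
  rw [h2]
  exact AddSubgroup.sum_mem _ fun j _ => h1 j (mem_K_one (h j))

theorem exists_of_th_ne {A : Subgroup G} {χ : G → ℤˣ} {g : G} {x : MonoidAlgebra ℤ G}
    (h : th A χ g x ≠ 0) : ∃ k ∈ x.coeff.support, k * g⁻¹ ∈ A := by
  classical
  by_contra hcon
  push Not at hcon
  apply h
  unfold th
  rw [AddMonoidHom.comp_apply]
  show Finsupp.liftAddHom _ x.coeff = _
  rw [Finsupp.liftAddHom_apply, Finsupp.sum]
  apply Finset.sum_eq_zero
  intro k hk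
  rw [if_neg (hcon k hk)]
  rfl

theorem reg_free {r : ℕ} (A : Subgroup G) (t : G) (h : Step A t) (χ : G → ℤˣ)
    (hχ : IsChar (next A t h) χ) (x : Fin r → MonoidAlgebra ℤ G)
    (hx : dt (actFree G r) t (χ t) x ∈ K (actFree G r) A χ) : x ∈ K (actFree G r) A χ := by
  have hχA : IsChar A χ := hχ.mono (le_next h)
  have hinv := char_inv h hχ
  apply mem_K_free
  intro j g
  by_contra hne
  have h1 : ∀ g, th A χ (t⁻¹ * g) (x j) = ((χ t : ℤˣ) : ℤ) * th A χ g (x j) := by
    intro g
    have h2 := th_of_mem_K hχA hx j g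
    rw [dt_apply] at h2
    have h3 : ((actFree G r).f t x - ((χ t : ℤˣ) : ℤ) • x) j =
        single t (1 : ℤ) * x j - ((χ t : ℤˣ) : ℤ) • x j := rfl
    rw [h3, map_sub, th_shift h hinv, map_zsmul, smul_eq_mul, sub_eq_zero] at h2
    exact h2
  have h4 : ∀ m : ℕ, th A χ ((t ^ m)⁻¹ * g) (x j) ≠ 0 := by
    intro m
    induction m with
    | zero => simpa using hne
    | succ m ih =>
      have e : (t ^ (m + 1))⁻¹ * g = t⁻¹ * ((t ^ m)⁻¹ * g) := by
        rw [pow_succ, mul_inv_rev, mul_assoc]
      rw [e, h1]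
      exact mul_ne_zero (Units.ne_zero _) ih
  choose k hk1 hk2 using fun m => exists_of_th_ne (h4 m)
  obtain ⟨m, m', hmm, he⟩ := Finite.exists_ne_map_eq_of_infinite
    (fun m : ℕ => (⟨k m, hk1 m⟩ : (x j).coeff.support))
  have he' : k m = k m' := congrArg Subtype.val he
  have e1 := hk2 m
  have e2 := hk2 m'
  rw [he'] at e1
  have e3 := A.mul_mem (A.inv_mem e1) e2
  have e4 : (k m' * ((t ^ m)⁻¹ * g)⁻¹)⁻¹ * (k m' * ((t ^ m')⁻¹ * g)⁻¹) =
      t ^ ((m' : ℤ) - (m : ℤ)) := by
    rw [zpow_sub, zpow_natCast, zpow_natCast]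
    have e5 : t ^ m' * (t ^ m)⁻¹ = (t ^ m)⁻¹ * t ^ m' :=
      ((Commute.refl t).pow_pow m' m).inv_right.eq
    rw [e5]
    group
  rw [e4] at e3
  have := h.inf _ e3
  apply hmm
  omega

end Pool.Agent.Lib.P9f173dA
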