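import Pool.Agent.Lib.P9f173dA.Alg

/-!
# The left regular representation
-/

set_option autoImplicit false

namespace Pool.Agent.Lib.P9f173dA

universe u

/-- The Hilbert space of square summable functions on `G`. -/
abbrev L2 (G : Type u) : Type u := lp (fun _ : G => ℂ) 2

variable {G : Type u} [Group G]

theorem memlp_shift (g : G) (ξ : L2 G) : Memℓp (fun h : G => ξ (g⁻¹ * h)) 2 := by
  have h1 : (0 : ℝ) < (2 : ENNReal).toReal := by norm_num
  have h2 := (memℓp_gen_iff h1).mp (lp.memℓp ξ)
  rw [memℓp_gen_iff h1]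
  exact (Equiv.mulLeft g⁻¹).summable_iff.mpr h2

/-- left translation of a square summable function: `(lamFun g ξ) h = ξ (g⁻¹ h)` -/
noncomputable def lamFun (g : G) (ξ : L2 G) : L2 G := ⟨fun h => ξ (g⁻¹ * h), memlp_shift g ξ⟩

theorem lamFun_apply (g : G) (ξ : L2 G) (h : G) : lamFun g ξ h = ξ (g⁻¹ * h) := rfl

theorem norm_lamFun (g : G) (ξ : L2 G) : ‖lamFun g ξ‖ = ‖ξ‖ := by
  have h1 : (0 : ℝ) < (2 : ENNReal).toReal := by norm_num
  rw [lp.norm_eq_tsum_rpow h1, lp.norm_eq_tsum_rpow h1]
  congr 1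
  exact (Equiv.mulLeft g⁻¹).tsum_eq (fun h => ‖ξ h‖ ^ (2 : ENNReal).toReal)

/-- The operator of left translation by `g`. -/
noncomputable def lam (g : G) : L2 G →L[ℂ] L2 G :=
  LinearMap.mkContinuous
    { toFun := lamFun g
      map_add' := fun _ _ => rfl
      map_smul' := fun _ _ => rfl } 1 (fun ξ => by
        rw [one_mul]
        exact (norm_lamFun g ξ).le)

theorem lam_apply (g : G) (ξ : L2 G) (h : G) : lam g ξ h = ξ (g⁻¹ * h) := rfl

theorem norm_lam (g : G) (ξ : L2 G) : ‖lam g ξ‖ = ‖ξ‖ := norm_lamFun g ξ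

theorem lam_one : lam (1 : G) = 1 := by
  ext ξ h
  rw [lam_apply, inv_one, one_mul]
  rfl

theorem lam_mul (g k : G) : lam (g * k) = lam g * lam k := by
  ext ξ h
  rw [lam_apply]
  show _ = lam g (lam k ξ) h
  rw [lam_apply, lam_apply, mul_inv_rev, mul_assoc]

/-- The left regular representation of `G`. -/
noncomputable def lamHom (G : Type u) [Group G] : G →* (L2 G →L[ℂ] L2 G) where
  toFun := lam
  map_one' := lam_one
  map_mul' := lam_mul

/-- The left regular representation of the complex group ring. -/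
noncomputable def reg (G : Type u) [Group G] : MonoidAlgebra ℂ G →ₐ[ℂ] (L2 G →L[ℂ] L2 G) :=
  MonoidAlgebra.lift ℂ (L2 G →L[ℂ] L2 G) G (lamHom G)

/-- The reduced group C*-algebra: the norm closure of the complex group ring acting on `L2 G`. -/
noncomputable def CStarRed (G : Type u) [Group G] : Subalgebra ℂ (L2 G →L[ℂ] L2 G) :=
  (reg G).range.topologicalClosure

theorem reg_mem (x : MonoidAlgebra ℂ G) : reg G x ∈ CStarRed G :=
  Subalgebra.le_topologicalClosure _ ⟨x, rfl⟩

theorem lam_mem (g : G) : lam g ∈ CStarRed G := by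
  have := reg_mem (MonoidAlgebra.single g (1 : ℂ))
  unfold reg at this
  rw [MonoidAlgebra.lift_single, one_smul] at this
  exact this

/-- The integral group ring maps to the reduced group C*-algebra. -/
noncomputable def toRed (G : Type u) [Group G] : MonoidAlgebra ℤ G →+* CStarRed G :=
  (MonoidAlgebra.lift ℤ (CStarRed G) G
    { toFun := fun g => ⟨lam g, lam_mem g⟩
      map_one' := Subtype.ext lam_one
      map_mul' := fun g h => Subtype.ext (lam_mul g h) }).toRingHom

theorem toRed_single (g : G) (c : ℤ) :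
    ((toRed G (MonoidAlgebra.single g c) : CStarRed G) : L2 G →L[ℂ] L2 G) = (c : ℂ) • lam g := by
  unfold toRed
  show ((MonoidAlgebra.lift ℤ (CStarRed G) G _ (MonoidAlgebra.single g c) : CStarRed G) :
    L2 G →L[ℂ] L2 G) = _
  rw [MonoidAlgebra.lift_single]
  rw [Int.cast_smul_eq_zsmul]
  rfl

theorem inner_eq_zero_of_disjoint {ξ η : L2 G} (h : ∀ g, ξ g = 0 ∨ η g = 0) :
    inner ℂ ξ η = 0 := by
  rw [lp.inner_eq_tsum]
  have : (fun i => inner ℂ (ξ i) (η i)) = fun _ : G => (0 : ℂ) := by
    funext i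
    rcases h i with h | h
    · rw [h, inner_zero_left]
    · rw [h, inner_zero_right]
  rw [this, tsum_zero]

end Pool.Agent.Lib.P9f173dA
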