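import Pool.Agent.Lib.P9f173dA.Res

/-!
# Non-vanishing of the homology with coefficients in the reduced group C*-algebra
-/

set_option autoImplicit false

namespace Pool.Agent.Lib.P9f173dA

open scoped Matrix
open MonoidAlgebra

universe u

variable {G : Type u} [Group G]

/-- the subgroups of the chain -/
def ch {n : ℕ} (t : Fin n → G) (k : ℕ) : Subgroup G := Subgroup.closure (t '' {j | (j : ℕ) < k})

/-- `t` generates a poly-infinite-cyclic group of Hirsch length `n`. -/
def IsPolyZ {n : ℕ} (t : Fin n → G) : Prop :=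
  ∀ i : Fin n, (∀ j < i, t i * t j * (t i)⁻¹ ∈ ch t i ∧ (t i)⁻¹ * t j * t i ∈ ch t i) ∧
    ∀ m : ℤ, t i ^ m ∈ ch t i → m = 0

theorem ch_zero {n : ℕ} (t : Fin n → G) : ch t 0 = ⊥ := by
  unfold ch
  simp

theorem step_ch {n : ℕ} {t : Fin n → G} (ht : IsPolyZ t) (i : Fin n) : Step (ch t i) (t i) where
  conj := by
    have : ch t i ≤ (ch t i).comap (MulAut.conj (t i)).toMonoidHom := by
      unfold ch
      rw [Subgroup.closure_le]
      rintro _ ⟨j, hj, rfl⟩
      exact ((ht i).1 j hj).1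
    intro a ha
    exact this ha
  conj' := by
    have : ch t i ≤ (ch t i).comap (MulAut.conj (t i)⁻¹).toMonoidHom := by
      unfold ch
      rw [Subgroup.closure_le]
      rintro _ ⟨j, hj, rfl⟩
      have h2 := ((ht i).1 j hj).2
      show (t i)⁻¹ * t j * ((t i)⁻¹)⁻¹ ∈ ch t i
      rw [inv_inv]
      exact h2
    intro a ha
    have h3 : (t i)⁻¹ * a * ((t i)⁻¹)⁻¹ ∈ ch t i := this ha
    rwa [inv_inv] at h3
  inf := (ht i).2

theorem next_ch {n : ℕ} {t : Fin n → G} (ht : IsPolyZ t) (i : Fin n) :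
    next (ch t i) (t i) (step_ch ht i) = ch t (i + 1) := by
  apply le_antisymm
  · apply next_le
    · apply Subgroup.closure_mono
      apply Set.image_mono
      intro j hj
      exact Nat.lt_succ_of_lt hj
    · exact Subgroup.subset_closure ⟨i, Nat.lt_succ_self _, rfl⟩
  · unfold ch
    rw [Subgroup.closure_le]
    rintro _ ⟨j, hj, rfl⟩
    rcases Nat.lt_succ_iff_lt_or_eq.mp hj with h | h
    · exact le_next _ (Subgroup.subset_closure ⟨j, h, rfl⟩)
    · have : j = i := Fin.ext h
      rw [this]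
      exact mem_next _

theorem P_ch (c : Cx G) {n : ℕ} {t : Fin n → G} (ht : IsPolyZ t) (k : ℕ) (hk : k ≤ n) :
    P c (ch t k) k := by
  induction k with
  | zero =>
    rw [ch_zero]
    exact P_zero c
  | succ k ih =>
    have h1 := P_step c (step_ch ht ⟨k, hk⟩) (ih (by omega))
    rw [next_ch ht ⟨k, hk⟩] at h1
    exact h1

theorem Fo_ch {n : ℕ} {t : Fin n → G} (ht : IsPolyZ t) (k : ℕ) (hk : k ≤ n) (χ : G → ℤˣ)
    (hχ : IsChar (ch t k) χ) : Fo (ch t k) χ := by
  induction k with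
  | zero =>
    rw [ch_zero] at hχ ⊢
    exact Fo_bot hχ
  | succ k ih =>
    have e := next_ch ht ⟨k, hk⟩
    have hχ' : IsChar (next (ch t k) (t ⟨k, hk⟩) (step_ch ht ⟨k, hk⟩)) χ := by
      rw [e]
      exact hχ
    have h1 := Fo_step (step_ch ht ⟨k, hk⟩) hχ' (ih (by omega) (hχ'.mono (le_next _)))
    rw [e] at h1
    exact h1

/-- **Main theorem**, for any ring `B` under `ℤ[G]` acting on `L2 G` in such a way that `ℤ[G]` acts
by the left regular representation. -/
theorem main {n : ℕ} (F : FiniteFreeResolution G n) {t : Fin n → G} (ht : IsPolyZ t)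
    {B : Type u} [Ring B] (φ : MonoidAlgebra ℤ G →+* B) (ψ : B →+* (L2 G →L[ℂ] L2 G))
    (hφψ : ∀ x, ψ (φ x) = op x) :
    ∃ i, ¬ HomologyVanishes F φ i := by
  classical
  by_contra hcon
  push Not at hcon
  obtain ⟨-, χ, hχ, y, hy, -, htf, -⟩ := P_ch (toCx F) ht n le_rfl
  have hFo := Fo_ch ht n le_rfl χ hχ
  have hyK : ¬ y ∈ K ((toCx F).ρ n) (ch t n) χ := by
    intro h
    have := htf 1 (by rw [one_smul]; exact K_le_Bd _ _ _ _ h)
    exact one_ne_zero this
  apply hyK
  cases n with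
  | zero =>
    exfalso
    have hy0 : ∃ j, y j ≠ 0 := by
      by_contra h
      push Not at h
      have : y = 0 := funext h
      rw [this] at hyK
      exact hyK (AddSubgroup.zero_mem _)
    obtain ⟨j, -⟩ := hy0
    obtain ⟨y', hy'⟩ := hcon 0 (fun _ => 1)
    have hr : F.r 1 = 0 := F.r_eq_zero 1 (by omega)
    have : IsEmpty (Fin (F.r 1)) := by rw [hr]; infer_instance
    have h1 := congrFun hy' j
    simp only [Matrix.vecMul, dotProduct, Finset.univ_eq_empty, Finset.sum_empty] at h1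
    have h2 : (0 : L2 G →L[ℂ] L2 G) = 1 := by
      have h5 := congrArg ψ h1
      rwa [map_zero, map_one] at h5
    obtain ⟨ξ, hξ, -⟩ := hFo ∅ (by simp) 1 one_pos
    have h3 := congrArg (fun T : L2 G →L[ℂ] L2 G => T ξ) h2
    have h4 : (0 : L2 G) = ξ := h3
    rw [← h4] at hξ
    simp at hξ
  | succ n =>
    obtain ⟨S, hS⟩ := exists_split F φ hcon
    apply mem_K_free
    intro j g
    have hz : (toCx F).δ n y ∈ K (actFree G (F.r n)) (ch t (n + 1)) χ := hy
    set z : Fin (F.r n) → MonoidAlgebra ℤ G := y ᵥ* F.D n with hzdef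
    set T : Fin (F.r n) → L2 G →L[ℂ] L2 G := fun k =>
      ψ (S k j) * lam g⁻¹ with hT
    obtain ⟨S1, hS1, ε1, hε1, k1⟩ := null hχ T hz (1 / 4) (by norm_num)
    obtain ⟨S2, hS2, ε2, hε2, k2⟩ := eval (A := ch t (n + 1)) (χ := χ) g (y j) (1 / 4)
      (by norm_num)
    obtain ⟨ξ, hξ1, hξ2, hξ3⟩ := hFo (S1 ∪ S2) (by
      intro a ha
      rcases Finset.mem_union.mp ha with h | h
      · exact hS1 a h
      · exact hS2 a h) (min ε1 ε2) (lt_min hε1 hε2)
    have b1 := k1 ξ hξ1 fun a ha =>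
      (hξ3 a (Finset.mem_union_left _ ha)).trans (min_le_left _ _)
    have b2 := k2 ξ hξ1 hξ2 fun a ha =>
      (hξ3 a (Finset.mem_union_right _ ha)).trans (min_le_right _ _)
    -- the identity
    have hid : op (y j) = ∑ k, op (z k) * ψ (S k j) := by
      have e1 : (fun i => φ (y i)) ᵥ* ((F.D n).map φ * S) = fun i => φ (y i) := by
        rw [hS, Matrix.vecMul_one]
      rw [← Matrix.vecMul_vecMul] at e1
      have e2 : (fun i => φ (y i)) ᵥ* (F.D n).map φ = fun k => φ (z k) := by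
        funext k
        rw [hzdef]
        simp only [Matrix.vecMul, dotProduct, map_sum, map_mul, Matrix.map_apply]
      rw [e2] at e1
      have e3 := congrFun e1 j
      simp only [Matrix.vecMul, dotProduct] at e3
      have e4 := congrArg ψ e3
      rw [← hφψ, ← e4, map_sum]
      exact Finset.sum_congr rfl fun k _ => by rw [map_mul, hφψ]
    have htest : inner ℂ ξ (op (y j) (lam g⁻¹ ξ)) = test z T ξ := by
      unfold test
      rw [hid, ← inner_sum]
      congr 1
      rw [hT]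
      simp
    rw [htest] at b2
    have b1' : ‖test z T ξ‖ ≤ 1 / 4 := b1
    have b3 : ‖((th (ch t (n + 1)) χ g (y j) : ℤ) : ℂ)‖ < 1 := by
      have e : ((th (ch t (n + 1)) χ g (y j) : ℤ) : ℂ) = test z T ξ -
        (test z T ξ - ((th (ch t (n + 1)) χ g (y j) : ℤ) : ℂ)) := by ring
      rw [e]
      refine lt_of_le_of_lt (norm_sub_le _ _) ?_
      linarith
    rw [Complex.norm_intCast] at b3
    have b4 : |th (ch t (n + 1)) χ g (y j)| < 1 := by exact_mod_cast b3
    exact Int.abs_lt_one_iff.mp b4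

end Pool.Agent.Lib.P9f173dA
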