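import Pool.Agent.Lib.P9f173dA.Free
import Pool.Agent.Lib.P9f173dA.Folner

/-!
# Finite free resolutions and their homology with coefficients in the reduced group C*-algebra
-/

set_option autoImplicit false

namespace Pool.Agent.Lib.P9f173dA

open scoped Matrix
open MonoidAlgebra

universe u

variable {G : Type u} [Group G]

/-- the sum of the coefficients, as a ring homomorphism `ℤ[G] → ℤ` -/
noncomputable def coeffSum (G : Type u) [Group G] : MonoidAlgebra ℤ G →+* ℤ :=
  (MonoidAlgebra.lift ℤ ℤ G (1 : G →* ℤ)).toRingHom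

/-- A finite free resolution of length `n` of the trivial `ℤ[G]`-module `ℤ`: free left modules
`F i = ℤ[G] ^ (r i)` (row vectors) with `r i = 0` for `i > n`, differentials `x ↦ x ᵥ* D i` from
`F (i + 1)` to `F i`, and augmentation `F 0 → ℤ` sending the basis vector `j` to `e j`; the
sequence `⋯ → F 1 → F 0 → ℤ → 0` is exact. -/
structure FiniteFreeResolution (G : Type u) [Group G] (n : ℕ) where
  /-- the ranks -/
  r : ℕ → ℕ
  r_eq_zero : ∀ i, n < i → r i = 0
  /-- the matrices of the differentials -/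
  D : ∀ i, Matrix (Fin (r (i + 1))) (Fin (r i)) (MonoidAlgebra ℤ G)
  /-- the augmentation on the basis -/
  e : Fin (r 0) → ℤ
  comp : ∀ i, D (i + 1) * D i = 0
  exact : ∀ i (x : Fin (r (i + 1)) → MonoidAlgebra ℤ G), x ᵥ* D i = 0 →
    ∃ y : Fin (r (i + 2)) → MonoidAlgebra ℤ G, y ᵥ* D (i + 1) = x
  aug_comp : ∀ x : Fin (r 1) → MonoidAlgebra ℤ G, ∑ j, coeffSum G ((x ᵥ* D 0) j) * e j = 0
  aug_exact : ∀ x : Fin (r 0) → MonoidAlgebra ℤ G, ∑ j, coeffSum G (x j) * e j = 0 →
    ∃ y : Fin (r 1) → MonoidAlgebra ℤ G, y ᵥ* D 0 = x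
  aug_surj : ∃ x : Fin (r 0) → MonoidAlgebra ℤ G, ∑ j, coeffSum G (x j) * e j = 1

/-- Vanishing of the `i`-th homology of the complex `B ⊗ F`, i.e. of
`⋯ → B ^ (r 1) → B ^ (r 0) → 0` with differentials `x ↦ x ᵥ* φ(D i)`, for a ring `B` with a
homomorphism `φ : ℤ[G] → B`. -/
def HomologyVanishes {n : ℕ} (F : FiniteFreeResolution G n) {B : Type u} [Ring B]
    (φ : MonoidAlgebra ℤ G →+* B) : ℕ → Prop
  | 0 => ∀ x : Fin (F.r 0) → B, ∃ y : Fin (F.r 1) → B, y ᵥ* (F.D 0).map φ = x
  | i + 1 => ∀ x : Fin (F.r (i + 1)) → B, x ᵥ* (F.D i).map φ = 0 →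
      ∃ y : Fin (F.r (i + 2)) → B, y ᵥ* (F.D (i + 1)).map φ = x

theorem act_vecMul {m k : ℕ} (g : G) (x : Fin m → MonoidAlgebra ℤ G)
    (D : Matrix (Fin m) (Fin k) (MonoidAlgebra ℤ G)) :
    ((actFree G m).f g x) ᵥ* D = (actFree G k).f g (x ᵥ* D) := by
  funext j
  rw [actFree_apply]
  simp only [Matrix.vecMul, dotProduct, actFree_apply]
  rw [Finset.mul_sum]
  exact Finset.sum_congr rfl fun i _ => mul_assoc _ _ _

/-- the complex of a resolution -/
noncomputable def toCx {n : ℕ} (F : FiniteFreeResolution G n) : Cx G where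
  F := fun i => Fin (F.r i) → MonoidAlgebra ℤ G
  ρ := fun i => actFree G (F.r i)
  δ := fun i =>
    { toFun := fun x => x ᵥ* F.D i
      map_zero' := Matrix.zero_vecMul _
      map_add' := fun x y => Matrix.add_vecMul _ _ _ }
  comm := fun i g x => act_vecMul g x (F.D i)
  sq := fun i x => by
    show (x ᵥ* F.D (i + 1)) ᵥ* F.D i = 0
    rw [Matrix.vecMul_vecMul, F.comp, Matrix.vecMul_zero]
  exact := fun i x hx => F.exact i x hx
  aug :=
    { toFun := fun x => ∑ j, coeffSum G (x j) * F.e j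
      map_zero' := by simp
      map_add' := fun x y => by
        simp only [Pi.add_apply, map_add, add_mul, Finset.sum_add_distrib] }
  aug_inv := fun g x => by
    show ∑ j, coeffSum G (single g (1 : ℤ) * x j) * F.e j = ∑ j, coeffSum G (x j) * F.e j
    refine Finset.sum_congr rfl fun j _ => ?_
    rw [map_mul]
    have : coeffSum G (single g (1 : ℤ)) = 1 := by
      unfold coeffSum
      show MonoidAlgebra.lift ℤ ℤ G (1 : G →* ℤ) (single g (1 : ℤ)) = 1
      rw [MonoidAlgebra.lift_single]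
      simp
    rw [this, one_mul]
  aug_δ := F.aug_comp
  aug_exact := F.aug_exact
  aug_one := F.aug_surj
  reg := fun A t h χ hχ i x hx => reg_free A t h χ hχ x hx

/-- A contraction. -/
theorem exists_contraction {n : ℕ} (F : FiniteFreeResolution G n) {B : Type u} [Ring B]
    (φ : MonoidAlgebra ℤ G →+* B) (hv : ∀ i, HomologyVanishes F φ i) (i : ℕ) :
    ∃ S : Matrix (Fin (F.r i)) (Fin (F.r (i + 1))) B,
      (F.D i).map φ * S * (F.D i).map φ = (F.D i).map φ := by
  classical
  induction i with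
  | zero =>
    have h0 : ∀ j, ∃ y : Fin (F.r 1) → B, y ᵥ* (F.D 0).map φ = Pi.single j 1 := fun j => hv 0 _
    choose y hy using h0
    refine ⟨Matrix.of y, ?_⟩
    have h1 : Matrix.of y * (F.D 0).map φ = 1 := by
      ext j k
      have := congrFun (hy j) k
      rw [Matrix.mul_apply]
      simp only [Matrix.vecMul, dotProduct] at this
      simp only [Matrix.of_apply]
      rw [this, Matrix.one_apply, Pi.single_apply]
      simp [eq_comm]
    rw [Matrix.mul_assoc, h1, Matrix.mul_one]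
  | succ i ih =>
    obtain ⟨S, hS⟩ := ih
    have h0 : ∀ j, ∃ y : Fin (F.r (i + 2)) → B,
        y ᵥ* (F.D (i + 1)).map φ = (1 - (F.D i).map φ * S : Matrix _ _ B) j := by
      intro j
      apply hv (i + 1)
      have h1 : (1 - (F.D i).map φ * S) * (F.D i).map φ = 0 := by
        rw [Matrix.sub_mul, Matrix.one_mul, hS, sub_self]
      funext k
      have := congrFun (congrFun h1 j) k
      rw [Matrix.mul_apply] at this
      exact this
    choose y hy using h0
    refine ⟨Matrix.of y, ?_⟩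
    have h1 : Matrix.of y * (F.D (i + 1)).map φ = 1 - (F.D i).map φ * S := by
      ext j k
      have := congrFun (hy j) k
      rw [Matrix.mul_apply]
      exact this
    have h2 : (F.D (i + 1)).map φ * (F.D i).map φ = 0 := by
      rw [← Matrix.map_mul, F.comp]
      ext j k
      simp
    rw [Matrix.mul_assoc, h1, Matrix.mul_sub, Matrix.mul_one, ← Matrix.mul_assoc, h2,
      Matrix.zero_mul, sub_zero]

/-- The top differential is split injective. -/
theorem exists_split {n : ℕ} (F : FiniteFreeResolution G (n + 1)) {B : Type u} [Ring B]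
    (φ : MonoidAlgebra ℤ G →+* B) (hv : ∀ i, HomologyVanishes F φ i) :
    ∃ S : Matrix (Fin (F.r n)) (Fin (F.r (n + 1))) B, (F.D n).map φ * S = 1 := by
  obtain ⟨S, hS⟩ := exists_contraction F φ hv n
  refine ⟨S, ?_⟩
  have h0 : ∀ j, (1 - (F.D n).map φ * S : Matrix _ _ B) j = 0 := by
    intro j
    have h1 : (1 - (F.D n).map φ * S) * (F.D n).map φ = 0 := by
      rw [Matrix.sub_mul, Matrix.one_mul, hS, sub_self]
    obtain ⟨y, hy⟩ := hv (n + 1) ((1 - (F.D n).map φ * S : Matrix _ _ B) j) (by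
      funext k
      have := congrFun (congrFun h1 j) k
      rw [Matrix.mul_apply] at this
      exact this)
    have hr : F.r (n + 2) = 0 := F.r_eq_zero _ (by omega)
    have : IsEmpty (Fin (F.r (n + 2))) := by rw [hr]; infer_instance
    rw [← hy]
    funext k
    simp [Matrix.vecMul, dotProduct]
  have h1 : 1 - (F.D n).map φ * S = 0 := by
    ext j k
    rw [h0 j]
    rfl
  exact (sub_eq_zero.mp h1).symm

/-! ### Analysis -/

theorem inner_lam (a : G) (u v : L2 G) : inner ℂ (lam a u) (lam a v) = inner ℂ u v := by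
  rw [lp.inner_eq_tsum, lp.inner_eq_tsum]
  exact (Equiv.mulLeft a⁻¹).tsum_eq (fun h => inner ℂ (u h) (v h))

theorem inner_lam_right (a : G) (u v : L2 G) : inner ℂ u (lam a v) = inner ℂ (lam a⁻¹ u) v := by
  rw [← inner_lam a (lam a⁻¹ u) v]
  have : lam a (lam a⁻¹ u) = u := by
    have : lam a * lam a⁻¹ = 1 := by rw [← lam_mul, mul_inv_cancel, lam_one]
    exact congrArg (fun T : L2 G →L[ℂ] L2 G => T u) this
  rw [this]

/-- the operator of an element of the integral group ring -/
noncomputable def op (x : MonoidAlgebra ℤ G) : L2 G →L[ℂ] L2 G := (toRed G x : CStarRed G)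

theorem op_add (x y : MonoidAlgebra ℤ G) : op (x + y) = op x + op y := by
  unfold op
  rw [map_add]
  rfl

theorem op_mul (x y : MonoidAlgebra ℤ G) : op (x * y) = op x * op y := by
  unfold op
  rw [map_mul]
  rfl

theorem op_zero : op (0 : MonoidAlgebra ℤ G) = 0 := by
  unfold op
  rw [map_zero]
  rfl

theorem op_neg (x : MonoidAlgebra ℤ G) : op (-x) = - op x := by
  unfold op
  rw [map_neg]
  rfl

theorem op_single (g : G) (c : ℤ) : op (single g c) = (c : ℂ) • lam g := toRed_single g c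

theorem op_zsmul (c : ℤ) (x : MonoidAlgebra ℤ G) : op (c • x) = (c : ℂ) • op x := by
  unfold op
  rw [map_zsmul, Int.cast_smul_eq_zsmul]
  rfl

/-- the expression tested -/
noncomputable def test {r : ℕ} (z : Fin r → MonoidAlgebra ℤ G) (T : Fin r → L2 G →L[ℂ] L2 G)
    (ξ : L2 G) : ℂ := ∑ k, inner ℂ ξ (op (z k) (T k ξ))

theorem null {A : Subgroup G} {χ : G → ℤˣ} (hχ : IsChar A χ) {r : ℕ}
    (T : Fin r → L2 G →L[ℂ] L2 G) {z : Fin r → MonoidAlgebra ℤ G}
    (hz : z ∈ K (actFree G r) A χ) (δ : ℝ) (hδ : 0 < δ) :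
    ∃ S : Finset G, (∀ a ∈ S, a ∈ A) ∧ ∃ ε : ℝ, 0 < ε ∧ ∀ ξ : L2 G, ‖ξ‖ = 1 →
      (∀ a ∈ S, ‖lam a ξ - sg (χ a) • ξ‖ ≤ ε) → ‖test z T ξ‖ ≤ δ := by
  classical
  induction hz using AddSubgroup.closure_induction generalizing δ with
  | mem z hz =>
    obtain ⟨a, ha, x, rfl⟩ := hz
    set C : ℝ := ∑ k, ‖op (x k)‖ * ‖T k‖ with hC
    have hC0 : 0 ≤ C := Finset.sum_nonneg fun k _ => mul_nonneg (norm_nonneg _) (norm_nonneg _)
    refine ⟨{a⁻¹}, ?_, δ / (C + 1), by positivity, ?_⟩
    · intro b hb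
      rw [Finset.mem_singleton] at hb
      rw [hb]
      exact A.inv_mem ha
    · intro ξ hξ1 hξ
      have h1 := hξ a⁻¹ (Finset.mem_singleton_self _)
      rw [hχ.inv ha] at h1
      have e : ∀ k, inner ℂ ξ (op (((actFree G r).f a x - ((χ a : ℤˣ) : ℤ) • x) k) (T k ξ)) =
          inner ℂ (lam a⁻¹ ξ - sg (χ a) • ξ) (op (x k) (T k ξ)) := by
        intro k
        have e1 : ((actFree G r).f a x - ((χ a : ℤˣ) : ℤ) • x) k =
            single a (1 : ℤ) * x k + -(((χ a : ℤˣ) : ℤ) • x k) := by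
          rw [Pi.sub_apply, actFree_apply, Pi.smul_apply, sub_eq_add_neg]
        rw [e1, op_add, op_mul, op_single, op_neg, op_zsmul]
        have e2 : ((((1 : ℤ) : ℂ) • lam a * op (x k) + -((((χ a : ℤˣ) : ℤ) : ℂ) • op (x k)))
            (T k ξ)) = lam a (op (x k) (T k ξ)) - sg (χ a) • (op (x k) (T k ξ)) := by
          rw [Int.cast_one, one_smul, sub_eq_add_neg]
          rfl
        rw [e2, inner_sub_right, inner_sub_left, inner_lam_right, inner_smul_right,
          inner_smul_left]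
        congr 2
        unfold sg
        simp
      unfold test
      rw [Finset.sum_congr rfl fun k _ => e k]
      refine (norm_sum_le _ _).trans ?_
      have h2 : ∀ k, ‖inner ℂ (lam a⁻¹ ξ - sg (χ a) • ξ) (op (x k) (T k ξ))‖ ≤
          (δ / (C + 1)) * (‖op (x k)‖ * ‖T k‖) := by
        intro k
        refine (norm_inner_le_norm _ _).trans ?_
        apply mul_le_mul h1 _ (norm_nonneg _) (by positivity)
        refine ((op (x k)).le_opNorm _).trans ?_
        apply mul_le_mul_of_nonneg_left _ (norm_nonneg _)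
        have := (T k).le_opNorm ξ
        rwa [hξ1, mul_one] at this
      refine (Finset.sum_le_sum fun k _ => h2 k).trans ?_
      rw [← Finset.mul_sum, ← hC, div_mul_eq_mul_div, div_le_iff₀ (by positivity)]
      nlinarith
  | zero =>
    refine ⟨∅, by simp, 1, one_pos, ?_⟩
    intro ξ _ _
    unfold test
    have : ∀ k, inner ℂ ξ (op ((0 : Fin r → MonoidAlgebra ℤ G) k) (T k ξ)) = 0 := by
      intro k
      rw [Pi.zero_apply, op_zero]
      simp
    rw [Finset.sum_congr rfl fun k _ => this k]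
    simp [hδ.le]
  | add z w _ _ ih1 ih2 =>
    obtain ⟨S1, hS1, ε1, hε1, h1⟩ := ih1 (δ / 2) (by linarith)
    obtain ⟨S2, hS2, ε2, hε2, h2⟩ := ih2 (δ / 2) (by linarith)
    refine ⟨S1 ∪ S2, ?_, min ε1 ε2, lt_min hε1 hε2, ?_⟩
    · intro a ha
      rcases Finset.mem_union.mp ha with h | h
      · exact hS1 a h
      · exact hS2 a h
    · intro ξ hξ hS
      have e : test (z + w) T ξ = test z T ξ + test w T ξ := by
        unfold test
        rw [← Finset.sum_add_distrib]
        refine Finset.sum_congr rfl fun k _ => ?_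
        rw [Pi.add_apply, op_add, ← inner_add_right]
        rfl
      rw [e]
      refine (norm_add_le _ _).trans ?_
      have k1 := h1 ξ hξ fun a ha => (hS a (Finset.mem_union_left _ ha)).trans (min_le_left _ _)
      have k2 := h2 ξ hξ fun a ha => (hS a (Finset.mem_union_right _ ha)).trans (min_le_right _ _)
      linarith
  | neg z _ ih =>
    obtain ⟨S1, hS1, ε1, hε1, h1⟩ := ih δ hδ
    refine ⟨S1, hS1, ε1, hε1, ?_⟩
    intro ξ hξ hS
    have e : test (-z) T ξ = - test z T ξ := by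
      unfold test
      rw [← Finset.sum_neg_distrib]
      refine Finset.sum_congr rfl fun k _ => ?_
      rw [Pi.neg_apply, op_neg, ← inner_neg_right]
      rfl
    rw [e, norm_neg]
    exact h1 ξ hξ hS

theorem eval {A : Subgroup G} {χ : G → ℤˣ} (g : G) (x : MonoidAlgebra ℤ G) (δ : ℝ)
    (hδ : 0 < δ) :
    ∃ S : Finset G, (∀ a ∈ S, a ∈ A) ∧ ∃ ε : ℝ, 0 < ε ∧ ∀ ξ : L2 G, ‖ξ‖ = 1 →
      (∀ h, h ∉ A → ξ h = 0) →
      (∀ a ∈ S, ‖lam a ξ - sg (χ a) • ξ‖ ≤ ε) →
        ‖inner ℂ ξ (op x (lam g⁻¹ ξ)) - ((th A χ g x : ℤ) : ℂ)‖ ≤ δ := by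
  classical
  induction x using MonoidAlgebra.induction generalizing δ with
  | zero =>
    refine ⟨∅, by simp, 1, one_pos, ?_⟩
    intro ξ _ _ _
    rw [op_zero]
    simp [hδ.le]
  | single_add h c x _ _ ih =>
    obtain ⟨S, hS, ε, hε, hx⟩ := ih (δ / 2) (by linarith)
    have e0 : ∀ ξ : L2 G, inner ℂ ξ (op (single h c + x) (lam g⁻¹ ξ)) =
        (c : ℂ) * inner ℂ ξ (lam (h * g⁻¹) ξ) + inner ℂ ξ (op x (lam g⁻¹ ξ)) := by
      intro ξ
      rw [op_add, op_single, lam_mul, ← inner_smul_right, ← inner_add_right]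
      rfl
    by_cases hh : h * g⁻¹ ∈ A
    · refine ⟨insert (h * g⁻¹) S, ?_, min ε (δ / (2 * (|(c : ℝ)| + 1))),
        lt_min hε (by positivity), ?_⟩
      · intro a ha
        rcases Finset.mem_insert.mp ha with h1 | h1
        · rw [h1]; exact hh
        · exact hS a h1
      · intro ξ hξ1 hξ2 hξ3
        have k1 := hx ξ hξ1 hξ2 fun a ha =>
          (hξ3 a (Finset.mem_insert_of_mem ha)).trans (min_le_left _ _)
        have k2 := (hξ3 _ (Finset.mem_insert_self _ _)).trans (min_le_right _ _)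
        rw [e0, map_add, th_single, if_pos hh]
        have k3 : ‖inner ℂ ξ (lam (h * g⁻¹) ξ) - sg (χ (h * g⁻¹))‖ ≤
            δ / (2 * (|(c : ℝ)| + 1)) := by
          have e1 : inner ℂ ξ (lam (h * g⁻¹) ξ) - sg (χ (h * g⁻¹)) =
              inner ℂ ξ (lam (h * g⁻¹) ξ - sg (χ (h * g⁻¹)) • ξ) := by
            rw [inner_sub_right, inner_smul_right, inner_self_eq_norm_sq_to_K, hξ1]
            simp
          rw [e1]
          refine (norm_inner_le_norm _ _).trans ?_
          rw [hξ1, one_mul]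
          exact k2
        have e2 : (c : ℂ) * inner ℂ ξ (lam (h * g⁻¹) ξ) + inner ℂ ξ (op x (lam g⁻¹ ξ)) -
            (((((χ (h * g⁻¹) : ℤˣ)) : ℤ) * c + th A χ g x : ℤ) : ℂ) =
            (c : ℂ) * (inner ℂ ξ (lam (h * g⁻¹) ξ) - sg (χ (h * g⁻¹))) +
            (inner ℂ ξ (op x (lam g⁻¹ ξ)) - ((th A χ g x : ℤ) : ℂ)) := by
          unfold sg
          push_cast
          ring
        rw [e2]
        refine (norm_add_le _ _).trans ?_
        have k4 : ‖(c : ℂ) * (inner ℂ ξ (lam (h * g⁻¹) ξ) - sg (χ (h * g⁻¹)))‖ ≤ δ / 2 := by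
          rw [norm_mul]
          have hc : ‖(c : ℂ)‖ = |(c : ℝ)| := by
            rw [Complex.norm_intCast]
          rw [hc]
          calc |(c : ℝ)| * _ ≤ |(c : ℝ)| * (δ / (2 * (|(c : ℝ)| + 1))) :=
                mul_le_mul_of_nonneg_left k3 (abs_nonneg _)
            _ ≤ δ / 2 := by
              rw [mul_div_assoc', div_le_div_iff₀ (by positivity) (by norm_num)]
              nlinarith [abs_nonneg (c : ℝ)]
        linarith
    · refine ⟨S, hS, ε, hε, ?_⟩
      intro ξ hξ1 hξ2 hξ3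
      have k1 := hx ξ hξ1 hξ2 hξ3
      rw [e0, map_add, th_single, if_neg hh]
      have e1 : inner ℂ ξ (lam (h * g⁻¹) ξ) = 0 := by
        apply inner_eq_zero_of_disjoint
        intro b
        by_cases hb : b ∈ A
        · right
          rw [lam_apply]
          apply hξ2
          intro hb2
          apply hh
          have := A.mul_mem hb (A.inv_mem hb2)
          rwa [mul_inv_rev, inv_inv, mul_inv_cancel_left] at this
        · left
          exact hξ2 b hb
      rw [e1, mul_zero, zero_add, zero_add]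
      linarith

end Pool.Agent.Lib.P9f173dA
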